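import Pool.Agent.X105.WK.Geo

namespace Pool.Agent.X105.WK

variable {n M : ℕ}

theorem zne1 (hM : 1 ≤ M) : (1 : ZMod (M + 1)) ≠ 0 := by
  intro h
  have : ((1 : ℕ) : ZMod (M + 1)) = 0 := by simpa using h
  rw [ZMod.natCast_eq_zero_iff] at this
  have := Nat.le_of_dvd (by omega) this
  omega

theorem zne2 (hM : 2 ≤ M) : (2 : ZMod (M + 1)) ≠ 0 := by
  intro h
  have : ((2 : ℕ) : ZMod (M + 1)) = 0 := by simpa using h
  rw [ZMod.natCast_eq_zero_iff] at this
  have := Nat.le_of_dvd (by omega) this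
  omega

/-- outer faces -/
def outer (n : ℕ) {M : ℕ} (x : ℕ × ZMod (M + 1)) : Prop := x.1 = 0 ∨ x.1 = n + 1

theorem en_ne (hM : 1 ≤ M) (q : ℕ) (p : Cr n M) : en q p false ≠ en q p true := by
  have hi := p.1.isLt
  intro h
  simp only [en, fc] at h
  by_cases hc : p.1.val % 2 = q
  · simp [hc] at h
    exact zne1 hM h
  · simp [hc] at h
    split_ifs at h <;> simp only [Prod.mk.injEq] at h <;> omega

theorem row (q : ℕ) (p : Cr n M) (b : Bool) (h : ¬ outer n (en q p b)) :
    p.2 = (en q p b).2 ∨ p.2 = (en q p b).2 + 1 := by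
  have hi := p.1.isLt
  simp only [en, fc, outer] at h ⊢
  by_cases hc : p.1.val % 2 = q
  · cases b <;> simp [hc]
  · cases b
    · by_cases h0 : p.1.val = 0
      · simp only [if_neg hc, Bool.false_eq_true, if_false, if_pos h0] at h
        simp at h
      · simp only [if_neg hc, Bool.false_eq_true, if_false, if_neg h0]
        simp
    · by_cases h0 : p.1.val + 1 = n
      · simp only [if_neg hc, if_true, if_pos h0] at h
        simp at h
      · simp only [if_neg hc, if_true, if_neg h0]
        simp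

theorem nout (hn : 2 ≤ n) (q : ℕ) (p : Cr n M) :
    ¬ (outer n (en q p false) ∧ outer n (en q p true)) := by
  have hi := p.1.isLt
  rintro ⟨h1, h2⟩
  simp only [en, fc, outer] at h1 h2
  by_cases hc : p.1.val % 2 = q
  · simp only [if_pos hc, Bool.false_eq_true, if_false] at h1
    omega
  · simp only [if_neg hc, Bool.false_eq_true, if_false, if_true] at h1 h2
    by_cases h0 : p.1.val = 0
    · by_cases h3 : p.1.val + 1 = n
      · omega
      · simp only [if_neg h3] at h2
        omega
    · simp only [if_neg h0] at h1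
      omega

theorem en_inj (hn : 2 ≤ n) (q : ℕ) (p p' : Cr n M) (h0 : en q p false = en q p' false)
    (h1 : en q p true = en q p' true) : p = p' := by
  obtain ⟨i, j⟩ := p
  obtain ⟨i', j'⟩ := p'
  have hi := i.isLt
  have hi' := i'.isLt
  simp only [en, fc] at h0 h1
  by_cases hc : i.val % 2 = q <;> by_cases hc' : i'.val % 2 = q
  · simp [hc, hc'] at h0 h1
    obtain ⟨h2, h3⟩ := h1
    exact Prod.ext (Fin.ext h2) h3
  · exfalso
    simp only [hc, hc', if_true, if_false] at h0 h1
    split_ifs at h0 h1 <;> simp only [Prod.mk.injEq] at h0 h1 <;> omega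
  · exfalso
    simp only [hc, hc', if_true, if_false] at h0 h1
    split_ifs at h0 h1 <;> simp only [Prod.mk.injEq] at h0 h1 <;> omega
  · simp only [hc, hc', if_false] at h0 h1
    split_ifs at h0 h1 with a1 a2 a3 a4 a5 a6 a7 <;>
      simp only [Prod.mk.injEq] at h0 h1 <;>
      first
      | (exfalso; omega)
      | (apply Prod.ext
         · apply Fin.ext; simp only; omega
         · first | exact h0.2 | (have := h1.2; simpa using this))

theorem en_swap (hn : 2 ≤ n) (hM : 2 ≤ M) (q : ℕ) (p p' : Cr n M)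
    (h0 : en q p false = en q p' true) (h1 : en q p true = en q p' false) : False := by
  obtain ⟨i, j⟩ := p
  obtain ⟨i', j'⟩ := p'
  have hi := i.isLt
  have hi' := i'.isLt
  simp only [en, fc] at h0 h1
  by_cases hc : i.val % 2 = q <;> by_cases hc' : i'.val % 2 = q
  · simp [hc, hc'] at h0 h1
    have h2 : j = j' - 1 := h1.2
    have h3 : j - 1 = j' := h0.2
    apply zne2 hM
    have : (2 : ZMod (M + 1)) = j' - (j - 1) + (j - (j' - 1)) := by ring
    rw [this, h3]
    rw [h2]; ring
  · simp only [hc, hc', if_true, if_false] at h0 h1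
    split_ifs at h0 h1 <;> simp only [Prod.mk.injEq] at h0 h1 <;> omega
  · simp only [hc, hc', if_true, if_false] at h0 h1
    split_ifs at h0 h1 <;> simp only [Prod.mk.injEq] at h0 h1 <;> omega
  · simp only [hc, hc', if_false] at h0 h1
    split_ifs at h0 h1 <;> simp only [Prod.mk.injEq] at h0 h1 <;> omega

/-- rows at distance at most two -/
def close (a b : Cr n M) : Prop :=
  b.2 - a.2 = -2 ∨ b.2 - a.2 = -1 ∨ b.2 - a.2 = 0 ∨ b.2 - a.2 = 1 ∨ b.2 - a.2 = 2

def Ends (q : ℕ) (p : Cr n M) (x y : ℕ × ZMod (M + 1)) : Prop :=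
  (en q p false = x ∧ en q p true = y) ∨ (en q p false = y ∧ en q p true = x)

theorem Ends.symm' {q : ℕ} {p : Cr n M} {x y : ℕ × ZMod (M + 1)} (h : Ends q p x y) :
    Ends q p y x := Or.symm h

theorem Ends.row {q : ℕ} {p : Cr n M} {x y : ℕ × ZMod (M + 1)} (h : Ends q p x y)
    (hx : ¬ outer n x) : p.2 = x.2 ∨ p.2 = x.2 + 1 := by
  rcases h with ⟨h1, _⟩ | ⟨_, h1⟩
  · rw [← h1] at hx ⊢; exact WK.row q p false hx
  · rw [← h1] at hx ⊢; exact WK.row q p true hx

theorem Ends.nout {q : ℕ} (hn : 2 ≤ n) {p : Cr n M} {x y : ℕ × ZMod (M + 1)} (h : Ends q p x y)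
    (hx : outer n x) : ¬ outer n y := by
  intro hy
  rcases h with ⟨h1, h2⟩ | ⟨h1, h2⟩
  · exact WK.nout hn q p ⟨h1 ▸ hx, h2 ▸ hy⟩
  · exact WK.nout hn q p ⟨h1 ▸ hy, h2 ▸ hx⟩

theorem diff1 {s a b : ZMod (M + 1)} (ha : a = s ∨ a = s + 1) (hb : b = s ∨ b = s + 1) :
    b - a = -1 ∨ b - a = 0 ∨ b - a = 1 := by
  rcases ha with rfl | rfl <;> rcases hb with rfl | rfl
  · right; left; ring
  · right; right; ring
  · left; ring
  · right; left; ring

theorem close_lemma (hn : 2 ≤ n) (hM : 2 ≤ M) (q : ℕ) (F : Finset (Cr n M)) (e : Cr n M)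
    (he : e ∉ F) (hr : (G q F).Reachable (en q e false) (en q e true)) :
    ∃ a ∈ F, ∃ b ∈ F, a ≠ b ∧ close a b := by
  classical
  obtain ⟨w⟩ := hr
  obtain ⟨w, hp⟩ := w.toPath
  have hE : Ends q e (en q e false) (en q e true) := Or.inl ⟨rfl, rfl⟩
  have hne := en_ne (by omega : 1 ≤ M) q e
  have huniq : ∀ p ∈ F, ¬ Ends q p (en q e false) (en q e true) := by
    rintro p hpF (⟨h1, h2⟩ | ⟨h1, h2⟩)
    · exact he (en_inj hn q p e h1 h2 ▸ hpF)
    · exact en_swap hn hM q p e h1 h2
  generalize en q e false = x at *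
  generalize en q e true = y at *
  cases w with
  | nil => exact absurd rfl hne
  | @cons _ v1 _ h1 w1 =>
    cases w1 with
    | nil =>
      obtain ⟨_, p, hpF, h2⟩ := id h1
      exact absurd h2 (huniq p hpF)
    | @cons _ v2 _ h2 w2 =>
      have h1' := h1
      have h2' := h2
      obtain ⟨hxv1, p1, hp1, E1⟩ := h1'
      obtain ⟨hv12, p2, hp2, E2⟩ := h2'
      have E1' : Ends q p1 x v1 := E1
      have E2' : Ends q p2 v1 v2 := E2
      rw [SimpleGraph.Walk.cons_isPath_iff] at hp
      have hxv2 : x ≠ v2 := by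
        rintro rfl
        apply hp.2
        simp [SimpleGraph.Walk.support_cons]
      have hp12 : p1 ≠ p2 := by
        rintro rfl
        rcases E1 with ⟨a1, a2⟩ | ⟨a1, a2⟩ <;> rcases E2 with ⟨b1, b2⟩ | ⟨b1, b2⟩
        · exact hxv1 (a1.symm.trans b1)
        · exact hxv2 (a1.symm.trans b1)
        · exact hxv2 (a2.symm.trans b2)
        · exact hxv1 (a2.symm.trans b2)
      by_cases ho : outer n v1
      · have hx : ¬ outer n x := E1'.symm'.nout hn ho
        have hv2 : ¬ outer n v2 := E2'.nout hn ho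
        cases w2 with
        | nil =>
          refine ⟨p1, hp1, p2, hp2, hp12, ?_⟩
          have d1 := diff1 (E1'.row hx) (hE.row hx)
          have d2 := diff1 (hE.symm'.row hv2) (E2'.symm'.row hv2)
          have : p2.2 - p1.2 = (p2.2 - e.2) + (e.2 - p1.2) := by ring
          rw [close, this]
          rcases d1 with d1 | d1 | d1 <;> rcases d2 with d2 | d2 | d2 <;> rw [d1, d2] <;> ring_nf <;>
            simp
        | @cons _ v3 _ h3 w3 =>
          have h3' := h3
          obtain ⟨hv23, p3, hp3, E3⟩ := h3'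
          have E3' : Ends q p3 v2 v3 := E3
          have hpp := hp.1
          rw [SimpleGraph.Walk.cons_isPath_iff] at hpp
          have hv13 : v1 ≠ v3 := by
            rintro rfl
            apply hpp.2
            simp [SimpleGraph.Walk.support_cons]
          have hp23 : p2 ≠ p3 := by
            rintro rfl
            rcases E2 with ⟨a1, a2⟩ | ⟨a1, a2⟩ <;> rcases E3 with ⟨b1, b2⟩ | ⟨b1, b2⟩
            · exact hv12 (a1.symm.trans b1)
            · exact hv13 (a1.symm.trans b1)
            · exact hv13 (a2.symm.trans b2)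
            · exact hv12 (a2.symm.trans b2)
          refine ⟨p2, hp2, p3, hp3, hp23, ?_⟩
          rcases diff1 (E2'.symm'.row hv2) (E3'.row hv2) with d | d | d <;> simp [close, d]
      · refine ⟨p1, hp1, p2, hp2, hp12, ?_⟩
        rcases diff1 (E1'.symm'.row ho) (E2'.row ho) with d | d | d <;> simp [close, d]

end Pool.Agent.X105.WK
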