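import Pool.Agent.X105.WK.Geo

namespace Pool.Agent.X105.WK

variable {n M : ℕ}

theorem zmod_const {α : Type} (f : ZMod (M + 1) → α) (h : ∀ j, f j = f (j - 1)) (j : ZMod (M + 1)) :
    f j = f 0 := by
  have : ∀ k : ℕ, f (k : ZMod (M + 1)) = f 0 := by
    intro k
    induction k with
    | zero => simp
    | succ k ih =>
      rw [h]
      have : ((k + 1 : ℕ) : ZMod (M + 1)) - 1 = k := by push_cast; ring
      rw [this, ih]
  have h2 := this j.val
  rwa [ZMod.natCast_zmod_val] at h2

/-- number of columns of colour `q` -/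
def vc (n q : ℕ) : ℕ := (Finset.univ.filter (fun i : Fin n => i.val % 2 = q)).card

theorem fc_smo_empty (q : ℕ) (p : Pt n M) : fc q (smo q ∅ p) = fc q p := by
  obtain ⟨e, t, r⟩ := p
  by_cases hc : e.1.val % 2 = q
  · rw [smo_c q ∅ e (by simp) hc, fc_eq, fc_eq]; simp [hc]
  · rw [smo_n q ∅ e (by simp) hc, fc_eq, fc_eq]; simp [hc]

theorem card_idx (q : ℕ) : Nat.card ({i : Fin n // i.val % 2 = q} × ZMod (M + 1)) =
    vc n q * (M + 1) := by
  rw [Nat.card_eq_fintype_card, Fintype.card_prod, ZMod.card, Fintype.card_subtype]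
  rfl

theorem V_lower (q : ℕ) (hq : q < 2) : vc n q * (M + 1) ≤ loops q (∅ : Finset (Cr n M)) := by
  rw [← card_idx (M := M)]
  unfold loops
  have hh : ∀ x y, Rel (edge : Pt n M → Pt n M) (smo q ∅) x y → fc q x = fc q y := by
    rintro x y (rfl | rfl)
    · rw [fc_edge q hq]
    · rw [fc_smo_empty]
  let Φ : Quot (Rel (edge : Pt n M → Pt n M) (smo q ∅)) → ℕ × ZMod (M + 1) := Quot.lift (fc q) hh
  apply Nat.card_le_card_of_injective
    (fun x : {i : Fin n // i.val % 2 = q} × ZMod (M + 1) =>
      Quot.mk (Rel (edge : Pt n M → Pt n M) (smo q ∅)) (((x.1.1, x.2), true, false) : Pt n M))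
  rintro ⟨⟨i, hi⟩, j⟩ ⟨⟨i', hi'⟩, j'⟩ h
  have := congrArg Φ h
  simp only [Φ, fc] at this
  simp only [hi, hi', if_true] at this
  simp only [Prod.mk.injEq] at this
  obtain ⟨h1, h2⟩ := this
  have : i = i' := Fin.ext (by omega)
  subst this; subst h2; rfl

theorem V_upper (q : ℕ) (hq : q < 2) (hn : 1 ≤ n) :
    loops q (∅ : Finset (Cr n M)) ≤ vc n q * (M + 1) + 2 := by
  rw [← card_idx (M := M)]
  unfold loops
  set I := {i : Fin n // i.val % 2 = q} × ZMod (M + 1) with hI
  have hcard : Nat.card (Option (Option I)) = Nat.card I + 2 := by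
    simp [Nat.card_eq_fintype_card]
  rw [← hcard]
  let mk : Pt n M → Quot (Rel (edge : Pt n M → Pt n M) (smo q ∅)) := Quot.mk _
  have e1 : ∀ p, mk (edge p) = mk p := q1 _ _
  have e2 : ∀ p, mk (smo q ∅ p) = mk p := q2 _ _
  let g : Option (Option I) → Quot (Rel (edge : Pt n M → Pt n M) (smo q ∅)) := fun x =>
    match x with
    | none => mk ((⟨0, by omega⟩, 0), false, false)
    | some none => mk ((⟨n - 1, by omega⟩, 0), false, true)
    | some (some y) => mk ((y.1.1, y.2), true, false)
  have hnot : ∀ e : Cr n M, e ∉ (∅ : Finset (Cr n M)) := by simp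
  -- uncoloured: left ends
  have uL : ∀ e : Cr n M, ¬ e.1.val % 2 = q → mk (e, true, false) = mk (e, false, false) := by
    intro e hc
    have := e2 (e, false, false)
    rwa [smo_n q ∅ e (hnot e) hc] at this
  have uR : ∀ e : Cr n M, ¬ e.1.val % 2 = q → mk (e, true, true) = mk (e, false, true) := by
    intro e hc
    have := e2 (e, false, true)
    rwa [smo_n q ∅ e (hnot e) hc] at this
  have cT : ∀ e : Cr n M, e.1.val % 2 = q → mk (e, true, true) = mk (e, true, false) := by
    intro e hc
    have := e2 (e, true, false)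
    rwa [smo_c q ∅ e (hnot e) hc] at this
  have cB : ∀ e : Cr n M, e.1.val % 2 = q → mk (e, false, true) = mk (e, false, false) := by
    intro e hc
    have := e2 (e, false, false)
    rwa [smo_c q ∅ e (hnot e) hc] at this
  -- claims
  have c1 : ∀ (i : Fin n) (j : ZMod (M + 1)), i.val % 2 = q →
      mk ((i, j), false, false) = mk ((i, j - 1), true, false) := by
    intro i j hc
    rw [← e1 ((i, j), false, false)]
    simp only [edge]
    split_ifs with h
    · rfl
    · have hc' : ¬ (i.val - 1) % 2 = q := by omega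
      rw [uR (⟨i.val - 1, _⟩, j) hc', ← e1]
      have hlt : i.val - 1 + 1 < n := by have := i.isLt; omega
      simp only [edge, dif_pos hlt]
      congr 3
      apply Fin.ext; simp only; omega
  have c2 : ∀ (i : Fin n) (j : ZMod (M + 1)), ¬ i.val % 2 = q → (h0 : i.val ≠ 0) →
      mk ((i, j), false, false) = mk ((⟨i.val - 1, by have := i.isLt; omega⟩, j), true, false) := by
    intro i j hc h0
    rw [← e1 ((i, j), false, false)]
    simp only [edge, if_neg h0]
    have hc' : (i.val - 1) % 2 = q := by omega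
    exact cT (⟨i.val - 1, _⟩, j) hc'
  have c3 : ∀ (i : Fin n) (j : ZMod (M + 1)), ¬ i.val % 2 = q → i.val = 0 →
      mk ((i, j), false, false) = mk ((i, 0), false, false) := by
    intro i j hc h0
    apply zmod_const (fun j => mk ((i, j), false, false))
    intro j
    show mk ((i, j), false, false) = mk ((i, j - 1), false, false)
    rw [← e1 ((i, j), false, false)]
    simp only [edge, if_pos h0]
    exact uL (i, j - 1) hc
  have c4 : ∀ (i : Fin n) (j : ZMod (M + 1)), (h : i.val + 1 < n) →
      mk ((i, j), false, true) = mk ((⟨i.val + 1, h⟩, j - 1), true, false) := by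
    intro i j h
    rw [← e1 ((i, j), false, true)]
    simp only [edge, dif_pos h]
  have c5 : ∀ (i : Fin n) (j : ZMod (M + 1)), ¬ i.val % 2 = q → ¬ i.val + 1 < n →
      mk ((i, j), false, true) = mk ((i, 0), false, true) := by
    intro i j hc h0
    apply zmod_const (fun j => mk ((i, j), false, true))
    intro j
    show mk ((i, j), false, true) = mk ((i, j - 1), false, true)
    rw [← e1 ((i, j), false, true)]
    simp only [edge, dif_neg h0]
    exact uR (i, j - 1) hc
  apply Nat.card_le_card_of_surjective g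
  rintro ⟨⟨⟨i, j⟩, t, r⟩⟩
  show ∃ a, g a = mk ((i, j), t, r)
  by_cases hc : i.val % 2 = q
  · cases t
    · refine ⟨some (some (⟨i, hc⟩, j - 1)), ?_⟩
      show mk ((i, j - 1), true, false) = _
      cases r
      · exact (c1 i j hc).symm
      · rw [cB (i, j) hc]; exact (c1 i j hc).symm
    · refine ⟨some (some (⟨i, hc⟩, j)), ?_⟩
      show mk ((i, j), true, false) = _
      cases r
      · rfl
      · exact (cT (i, j) hc).symm
  · have hL : ∃ a, g a = mk ((i, j), false, false) := by
      by_cases h0 : i.val = 0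
      · refine ⟨none, ?_⟩
        rw [c3 i j hc h0]
        show mk ((⟨0, _⟩, 0), false, false) = _
        congr 3
        apply Fin.ext; simp only; omega
      · have hc' : (i.val - 1) % 2 = q := by omega
        refine ⟨some (some (⟨⟨i.val - 1, by have := i.isLt; omega⟩, hc'⟩, j)), ?_⟩
        rw [c2 i j hc h0]
    have hR : ∃ a, g a = mk ((i, j), false, true) := by
      by_cases h0 : i.val + 1 < n
      · have hc' : (i.val + 1) % 2 = q := by omega
        refine ⟨some (some (⟨⟨i.val + 1, h0⟩, hc'⟩, j - 1)), ?_⟩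
        rw [c4 i j h0]
      · refine ⟨some none, ?_⟩
        rw [c5 i j hc h0]
        show mk ((⟨n - 1, _⟩, 0), false, true) = _
        congr 3
        apply Fin.ext; have := i.isLt; simp only; omega
    cases t <;> cases r
    · exact hL
    · exact hR
    · rw [uL (i, j) hc]; exact hL
    · rw [uR (i, j) hc]; exact hR

end Pool.Agent.X105.WK
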