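import Pool.Agent.X105.WK.Close
import Pool.Agent.X105.WK.Vcnt

namespace Pool.Agent.X105.WK
open scoped BigOperators
open Finset

variable {n M : ℕ}

theorem c_pos (hn : 1 ≤ n) (q : ℕ) (T : Finset (Cr n M)) : 1 ≤ loops q T := by
  unfold loops
  have : Nonempty (Quot (Rel (edge : Pt n M → Pt n M) (smo q T))) :=
    ⟨Quot.mk _ ((⟨0, by omega⟩, 0), true, true)⟩
  exact Nat.card_pos

theorem c_union (q : ℕ) (F : Finset (Cr n M)) (D : Finset (Cr n M)) :
    Disjoint D F → loops q (D ∪ F) ≤ loops q F + D.card ∧ loops q F ≤ loops q (D ∪ F) + D.card := by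
  classical
  induction D using Finset.induction_on with
  | empty => intro _; simp
  | insert e D he ih =>
    intro hd
    rw [Finset.disjoint_insert_left] at hd
    obtain ⟨h1, h2⟩ := ih hd.2
    have hne : e ∉ D ∪ F := by simp [he, hd.1]
    obtain ⟨s1, s2⟩ := step_le q (D ∪ F) e hne
    rw [Finset.insert_union, Finset.card_insert_of_notMem he]
    constructor <;> omega

theorem c_sub (q : ℕ) {F T : Finset (Cr n M)} (h : F ⊆ T) :
    loops q T + F.card ≤ loops q F + T.card ∧ loops q F + F.card ≤ loops q T + T.card := by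
  classical
  have := c_union q F (T \ F) Finset.sdiff_disjoint
  rw [Finset.sdiff_union_of_subset h] at this
  have h2 := Finset.card_sdiff_add_card_eq_card h
  constructor <;> omega

def good (q : ℕ) (F : Finset (Cr n M)) : Prop := loops q F + F.card = loops q (∅ : Finset (Cr n M))

theorem exists_mx (q : ℕ) (T : Finset (Cr n M)) :
    ∃ F ⊆ T, good q F ∧ ∀ e ∈ T, e ∉ F → ¬ good q (insert e F) := by
  classical
  obtain ⟨F, hF, hmax⟩ := Finset.exists_max_image (T.powerset.filter (fun F => good q F))
    (fun F => F.card) ⟨∅, by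
      rw [Finset.mem_filter, Finset.mem_powerset]
      exact ⟨Finset.empty_subset _, by simp [good]⟩⟩
  rw [Finset.mem_filter, Finset.mem_powerset] at hF
  refine ⟨F, hF.1, hF.2, ?_⟩
  intro e heT heF hg
  have := hmax (insert e F) (by
    rw [Finset.mem_filter, Finset.mem_powerset]
    exact ⟨Finset.insert_subset heT hF.1, hg⟩)
  rw [Finset.card_insert_of_notMem heF] at this
  omega

noncomputable def mx (q : ℕ) (T : Finset (Cr n M)) : Finset (Cr n M) := (exists_mx q T).choose
theorem mx_sub (q : ℕ) (T : Finset (Cr n M)) : mx q T ⊆ T := (exists_mx q T).choose_spec.1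
theorem mx_good (q : ℕ) (T : Finset (Cr n M)) : good q (mx q T) := (exists_mx q T).choose_spec.2.1
theorem mx_max (q : ℕ) (T : Finset (Cr n M)) : ∀ e ∈ T, e ∉ mx q T → ¬ good q (insert e (mx q T)) :=
  (exists_mx q T).choose_spec.2.2

open Classical in
noncomputable def DD (q : ℕ) (F : Finset (Cr n M)) : Finset (Cr n M) :=
  Finset.univ.filter (fun e => e ∉ F ∧ (G q F).Reachable (en q e false) (en q e true))

theorem mem_DD' (q : ℕ) (F : Finset (Cr n M)) (e : Cr n M) :
    e ∈ DD q F ↔ e ∉ F ∧ (G q F).Reachable (en q e false) (en q e true) := by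
  classical
  simp [DD]

theorem mem_DD (q : ℕ) (hq : q < 2) (T : Finset (Cr n M)) (e : Cr n M) (he : e ∈ T)
    (h : e ∉ mx q T) : e ∈ DD q (mx q T) := by
  rw [mem_DD']
  refine ⟨h, ?_⟩
  by_contra hr
  apply mx_max q T e he h
  have h1 := merge_step q hq (mx q T) e h hr
  have h2 := mx_good q T
  unfold good at *
  rw [Finset.card_insert_of_notMem h]
  omega

def HasClose (F : Finset (Cr n M)) : Prop := ∃ a ∈ F, ∃ b ∈ F, a ≠ b ∧ close a b

theorem mx_close (hn : 2 ≤ n) (hM : 2 ≤ M) (q : ℕ) (hq : q < 2) (T : Finset (Cr n M))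
    (hb : ¬ good q T) : HasClose (mx q T) := by
  have : ∃ e ∈ T, e ∉ mx q T := by
    by_contra h
    push Not at h
    have : mx q T = T := Finset.Subset.antisymm (mx_sub q T) h
    exact hb (this ▸ mx_good q T)
  obtain ⟨e, heT, he⟩ := this
  have := mem_DD q hq T e heT he
  rw [mem_DD'] at this
  exact close_lemma hn hM q _ e this.1 this.2

theorem card_DD (hn : 2 ≤ n) (hM : 2 ≤ M) (q : ℕ) (F : Finset (Cr n M)) :
    (DD q F).card ≤ (2 * F.card) ^ 2 := by
  classical
  let W : Finset (ℕ × ZMod (M + 1)) :=
    F.image (fun p => en q p false) ∪ F.image (fun p => en q p true)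
  have hW : W.card ≤ 2 * F.card := by
    refine (Finset.card_union_le _ _).trans ?_
    have h1 := Finset.card_image_le (s := F) (f := fun p => en q p false)
    have h2 := Finset.card_image_le (s := F) (f := fun p => en q p true)
    omega
  have hmem : ∀ x y, x ≠ y → (G q F).Reachable x y → x ∈ W := by
    intro x y hxy hr
    obtain ⟨w⟩ := hr
    cases w with
    | nil => exact absurd rfl hxy
    | cons h _ =>
      obtain ⟨_, p, hp, (⟨h1, _⟩ | ⟨_, h1⟩)⟩ := id h
      · rw [Finset.mem_union]; left; rw [Finset.mem_image]; exact ⟨p, hp, h1⟩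
      · rw [Finset.mem_union]; right; rw [Finset.mem_image]; exact ⟨p, hp, h1⟩
  have : (DD q F).card ≤ (W ×ˢ W).card := by
    apply Finset.card_le_card_of_injOn (fun e => (en q e false, en q e true))
    · intro e he
      have he' : e ∈ DD q F := he
      rw [mem_DD'] at he'
      have hne := en_ne (by omega : 1 ≤ M) q e
      rw [Finset.mem_coe, Finset.mem_product]
      exact ⟨hmem _ _ hne he'.2, hmem _ _ hne.symm he'.2.symm⟩
    · intro e _ e' _ h
      simp only [Prod.mk.injEq] at h
      exact en_inj hn q e e' h.1 h.2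
  rw [Finset.card_product] at this
  calc (DD q F).card ≤ W.card * W.card := this
    _ ≤ (2 * F.card) * (2 * F.card) := Nat.mul_le_mul hW hW
    _ = _ := by ring

open Classical in
noncomputable def BB (n M f : ℕ) : Finset (Finset (Cr n M)) :=
  Finset.univ.filter (fun F => F.card = f ∧ HasClose F)

theorem card_cr : Fintype.card (Cr n M) = n * (M + 1) := by
  simp [Cr, ZMod.card]

theorem BB_small (f : ℕ) (hf : f < 2) : (BB n M f).card = 0 := by
  classical
  rw [Finset.card_eq_zero, BB, Finset.filter_eq_empty_iff]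
  rintro F _ ⟨h1, a, ha, b, hb, hab, _⟩
  have : 1 < F.card := Finset.one_lt_card.2 ⟨a, ha, b, hb, hab⟩
  omega

theorem card_close_pairs [DecidablePred (fun x : Cr n M × Cr n M => close x.1 x.2)] :
    (Finset.univ.filter (fun x : Cr n M × Cr n M => close x.1 x.2)).card ≤
      (n * (M + 1)) * (n * 5) := by
  classical
  let Δ : Finset (ZMod (M + 1)) := {-2, -1, 0, 1, 2}
  have hΔ : Δ.card ≤ 5 := Finset.card_le_five
  have : (Finset.univ.filter (fun x : Cr n M × Cr n M => close x.1 x.2)).card ≤
      ((Finset.univ : Finset (Cr n M)) ×ˢ ((Finset.univ : Finset (Fin n)) ×ˢ Δ)).card := by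
    apply Finset.card_le_card_of_injOn (fun x => (x.1, (x.2.1, x.2.2 - x.1.2)))
    · intro x hx
      have hx := (Finset.mem_filter.1 (Finset.mem_coe.1 hx)).2
      simp only [close] at hx
      simp only [Finset.coe_product, Set.mem_prod, Finset.mem_coe, Finset.mem_univ, true_and, Δ,
        Finset.mem_insert, Finset.mem_singleton]
      exact hx
    · intro x _ y _ h
      simp only [Prod.mk.injEq] at h
      obtain ⟨h1, h2, h3⟩ := h
      apply Prod.ext h1
      apply Prod.ext h2
      rw [h1] at h3
      exact sub_left_inj.1 h3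
  refine this.trans ?_
  rw [Finset.card_product, Finset.card_product, Finset.card_univ, card_cr, Finset.card_univ,
    Fintype.card_fin]
  gcongr

theorem card_BB (f : ℕ) (hf : 2 ≤ f) :
    (BB n M f).card ≤ (n * 5) * (n * (M + 1)) ^ (f - 1) := by
  classical
  let CP := Finset.univ.filter (fun x : Cr n M × Cr n M => close x.1 x.2)
  have hsub : BB n M f ⊆ (CP ×ˢ Finset.powersetCard (f - 2) Finset.univ).image
      (fun x => insert x.1.1 (insert x.1.2 x.2)) := by
    intro F hF
    rw [BB, Finset.mem_filter] at hF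
    obtain ⟨_, hc, a, ha, b, hb, hab, hcl⟩ := hF
    rw [Finset.mem_image]
    refine ⟨((a, b), (F.erase a).erase b), ?_, ?_⟩
    · rw [Finset.mem_product, Finset.mem_powersetCard]
      refine ⟨by simp [CP, hcl], Finset.subset_univ _, ?_⟩
      rw [Finset.card_erase_of_mem (Finset.mem_erase.2 ⟨hab.symm, hb⟩),
        Finset.card_erase_of_mem ha, hc]
      omega
    · simp only
      rw [Finset.insert_erase (Finset.mem_erase.2 ⟨hab.symm, hb⟩), Finset.insert_erase ha]
  calc (BB n M f).card ≤ _ := Finset.card_le_card hsub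
    _ ≤ (CP ×ˢ Finset.powersetCard (f - 2) (Finset.univ : Finset (Cr n M))).card :=
        Finset.card_image_le
    _ = CP.card * (n * (M + 1)).choose (f - 2) := by
        rw [Finset.card_product, Finset.card_powersetCard, Finset.card_univ, card_cr]
    _ ≤ ((n * (M + 1)) * (n * 5)) * (n * (M + 1)) ^ (f - 2) := by
        gcongr
        · exact card_close_pairs
        · exact Nat.choose_le_pow _ _
    _ = _ := by
        have : f - 1 = (f - 2) + 1 := by omega
        rw [this]; ring

end Pool.Agent.X105.WK
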