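import Mathlib

/-! Number of classes of a pair of self-maps under a local change. -/

namespace Pool.Agent.X105.WK

/-- the relation whose classes are the closed curves -/
def Rel {X : Type} (σ τ : X → X) (p p' : X) : Prop := p' = σ p ∨ p' = τ p

theorem q1 {X : Type} (σ τ : X → X) (x : X) : (Quot.mk (Rel σ τ) (σ x)) = Quot.mk _ x :=
  (Quot.sound (r := Rel σ τ) (show Rel σ τ x (σ x) from Or.inl rfl)).symm
theorem q2 {X : Type} (σ τ : X → X) (x : X) : (Quot.mk (Rel σ τ) (τ x)) = Quot.mk _ x :=
  (Quot.sound (r := Rel σ τ) (show Rel σ τ x (τ x) from Or.inr rfl)).symm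

section
variable {X : Type} [Finite X] (σ τ τ' : X → X) (a b c d : X)

theorem card_le_succ (hab : τ a = b) (hcd : τ c = d)
    (hs : ∀ x, x ≠ a → x ≠ b → x ≠ c → x ≠ d → τ' x = τ x)
    (hs' : ∀ x, (x = a ∨ x = b ∨ x = c ∨ x = d) →
      (τ' x = a ∨ τ' x = b ∨ τ' x = c ∨ τ' x = d)) :
    Nat.card (Quot (Rel σ τ)) ≤ Nat.card (Quot (Rel σ τ')) + 1 := by
  classical
  let J : X → X → Prop := fun p p' => Rel σ τ p p' ∨ Rel σ τ' p p'
  let mk : X → Quot (Rel σ τ) := Quot.mk _
  have e1 : ∀ x, mk (σ x) = mk x := q1 σ τ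
  have e2 : ∀ x, mk (τ x) = mk x := q2 σ τ
  have eb : mk b = mk a := by rw [← hab]; exact e2 a
  have ed : mk d = mk c := by rw [← hcd]; exact e2 c
  let r : Quot (Rel σ τ) → Quot (Rel σ τ) := fun x => if x = mk c then mk a else x
  have ra : r (mk a) = mk a := by simp only [r]; split_ifs <;> rfl
  have rc : r (mk c) = mk a := by simp only [r]; simp
  have rsp : ∀ x, (x = a ∨ x = b ∨ x = c ∨ x = d) → r (mk x) = mk a := by
    rintro x (rfl | rfl | rfl | rfl)
    · exact ra
    · rw [eb]; exact ra
    · exact rc
    · rw [ed]; exact rc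
  have hr : ∀ x y, J x y → r (mk x) = r (mk y) := by
    rintro x y ((rfl | rfl) | (rfl | rfl))
    · rw [e1]
    · rw [e2]
    · rw [e1]
    · by_cases hx : x = a ∨ x = b ∨ x = c ∨ x = d
      · rw [rsp x hx, rsp _ (hs' x hx)]
      · push Not at hx
        rw [hs x hx.1 hx.2.1 hx.2.2.1 hx.2.2.2, e2]
  let lift : Quot J → Quot (Rel σ τ) := Quot.lift (fun x => r (mk x)) hr
  let im : Quot (Rel σ τ) → Quot J := Quot.map id (fun x y h => Or.inl h)
  have hli : ∀ q, lift (im q) = r q := by
    rintro ⟨x⟩; rfl
  let g : Quot (Rel σ τ) → Option (Quot J) := fun q => if q = mk c then none else some (im q)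
  have hg : Function.Injective g := by
    intro q q' h
    simp only [g] at h
    split_ifs at h with h1 h2 h3
    · rw [h1, h2]
    · have := congrArg lift (Option.some.inj h)
      rw [hli, hli] at this
      simp only [r, if_neg h1, if_neg h3] at this
      exact this
  have s1 : Nat.card (Quot (Rel σ τ)) ≤ Nat.card (Option (Quot J)) :=
    Nat.card_le_card_of_injective g hg
  have s2 : Nat.card (Option (Quot J)) = Nat.card (Quot J) + 1 := by
    have : Fintype (Quot J) := Fintype.ofFinite _
    simp [Nat.card_eq_fintype_card]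
  let im' : Quot (Rel σ τ') → Quot J := Quot.map id (fun x y h => Or.inr h)
  have hsur : Function.Surjective im' := by
    rintro ⟨x⟩; exact ⟨Quot.mk _ x, rfl⟩
  have s3 : Nat.card (Quot J) ≤ Nat.card (Quot (Rel σ τ')) :=
    Nat.card_le_card_of_surjective im' hsur
  omega

theorem merge (inn : X → Bool) (hσi : Function.Injective σ) (hτi : Function.Injective τ)
    (nσ : ∀ x, inn (σ x) = !inn x) (nτ : ∀ x, inn (τ x) = !inn x)
    (hab : τ a = b) (hcd : τ c = d) (hba : τ b = a) (hdc : τ d = c)
    (hs : ∀ x, x ≠ a → x ≠ b → x ≠ c → x ≠ d → τ' x = τ x)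
    (had : τ' a = d) (hcb : τ' c = b) (hda : τ' d = a) (hbc : τ' b = c)
    (ia : inn a = true) (ic : inn c = true)
    (hne : (Quot.mk (Rel σ τ) a) ≠ Quot.mk (Rel σ τ) c) :
    Nat.card (Quot (Rel σ τ')) + 1 ≤ Nat.card (Quot (Rel σ τ)) := by
  classical
  have e1 := q1 σ τ
  have e2 := q2 σ τ
  have f1 := q1 σ τ'
  have f2 := q2 σ τ'
  have ib : inn b = false := by rw [← hab, nτ, ia]; rfl
  have id' : inn d = false := by rw [← hcd, nτ, ic]; rfl
  have key : (Quot.mk (Rel σ τ') a) = Quot.mk _ c := by
    by_contra hc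
    let π : X → X := fun x => σ (τ x)
    let π' : X → X := fun x => σ (τ' x)
    have hπi : Function.Injective π := hσi.comp hτi
    have hin : ∀ k : ℕ, inn (π^[k] c) = true := by
      intro k
      induction k with
      | zero => exact ic
      | succ k ih => rw [Function.iterate_succ_apply']; simp [π, nσ, nτ, ih]
    have hq : ∀ k : ℕ, (Quot.mk (Rel σ τ) (π^[k] c)) = Quot.mk _ c := by
      intro k
      induction k with
      | zero => rfl
      | succ k ih => rw [Function.iterate_succ_apply']; simp only [π]; rw [e1, e2, ih]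
    have hq' : ∀ k : ℕ, (Quot.mk (Rel σ τ') (π'^[k] a)) = Quot.mk _ a := by
      intro k
      induction k with
      | zero => rfl
      | succ k ih => rw [Function.iterate_succ_apply']; simp only [π']; rw [f1, f2, ih]
    have hk : ∀ k : ℕ, π'^[k+1] a = π^[k+1] c := by
      intro k
      induction k with
      | zero => simp [π, π', had, hcd]
      | succ k ih =>
        rw [Function.iterate_succ_apply', ih, Function.iterate_succ_apply' π (k+1)]
        set z := π^[k+1] c with hz
        have z1 : z ≠ a := by
          intro h; apply hne; rw [← h, hz]; exact (hq (k+1))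
        have z2 : z ≠ c := by
          intro h
          apply hc
          rw [← hq' (k+1), ih, h]
        have z3 : z ≠ b := by
          intro h; have := hin (k+1); rw [← hz, h, ib] at this; cases this
        have z4 : z ≠ d := by
          intro h; have := hin (k+1); rw [← hz, h, id'] at this; cases this
        simp only [π, π']
        rw [hs z z1 z3 z2 z4]
    -- return time
    have hper : ∃ k : ℕ, π^[k+1] c = c := by
      have : ¬ Function.Injective (fun k : ℕ => π^[k] c) := not_injective_infinite_finite _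
      simp only [Function.Injective, not_forall] at this
      obtain ⟨x, y, hxy, hne'⟩ := this
      wlog hlt : x < y generalizing x y
      · exact this y x hxy.symm (Ne.symm hne') (lt_of_le_of_ne (not_lt.1 hlt) (Ne.symm hne'))
      refine ⟨y - x - 1, ?_⟩
      have h2 : π^[x] (π^[y - x - 1 + 1] c) = π^[x] c := by
        rw [← Function.iterate_add_apply]
        have : x + (y - x - 1 + 1) = y := by omega
        rw [this]; exact hxy.symm
      exact (hπi.iterate x) h2
    obtain ⟨k, hk'⟩ := hper
    apply hc
    rw [← hq' (k+1), hk k, hk']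
  have fb : (Quot.mk (Rel σ τ') b) = Quot.mk _ c := by rw [← hcb]; exact f2 c
  have fd : (Quot.mk (Rel σ τ') d) = Quot.mk _ c := by rw [← had, f2 a]; exact key
  have hm : ∀ x y, Rel σ τ x y → (Quot.mk (Rel σ τ') x) = Quot.mk _ y := by
    rintro x y (rfl | rfl)
    · exact (f1 x).symm
    · by_cases h1 : x = a
      · rw [h1, hab, key, fb]
      by_cases h2 : x = b
      · rw [h2, hba, key, fb]
      by_cases h3 : x = c
      · rw [h3, hcd, fd]
      by_cases h4 : x = d
      · rw [h4, hdc, fd]
      rw [← hs x h1 h2 h3 h4, f2]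
  let im : Quot (Rel σ τ) → Quot (Rel σ τ') := Quot.lift (fun x => Quot.mk _ x) hm
  have hsur : Function.Surjective im := by
    rintro ⟨x⟩; exact ⟨Quot.mk _ x, rfl⟩
  have hni : ¬ Function.Injective im := by
    intro h
    exact hne (h key)
  have : Fintype (Quot (Rel σ τ)) := Fintype.ofFinite _
  have : Fintype (Quot (Rel σ τ')) := Fintype.ofFinite _
  rw [Nat.card_eq_fintype_card, Nat.card_eq_fintype_card]
  exact Fintype.card_lt_of_surjective_not_injective im hsur hni

end
end Pool.Agent.X105.WK
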