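import Pool.Agent.X105.WK.Cyc

/-! The closed braid diagram of the weaving link W(n+1, M+1) and its Kauffman states. -/

namespace Pool.Agent.X105.WK
open scoped BigOperators
open LaurentPolynomial

/-- The crossings of the closure of `(σ₁ σ₂⁻¹ σ₃ ⋯ σₙ^{±1})^{M+1}`: the crossing `(i, j)` is the
letter number `i` (between the strands `i` and `i+1`, counted from `0`) of the `j`-th factor. -/
abbrev Cr (n M : ℕ) := Fin n × ZMod (M + 1)

/-- The four ends at the crossings: `(e, top?, right?)`. -/
abbrev Pt (n M : ℕ) := Cr n M × Bool × Bool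

/-- The other end of the edge of the diagram which leaves the crossing at the given end. -/
def edge {n M : ℕ} (p : Pt n M) : Pt n M :=
  match p with
  | ((i, j), true, false) =>
      if i.val = 0 then ((i, j + 1), false, false)
      else ((⟨i.val - 1, lt_of_le_of_lt (Nat.sub_le _ _) i.isLt⟩, j + 1), false, true)
  | ((i, j), true, true) =>
      if h : i.val + 1 < n then ((⟨i.val + 1, h⟩, j), false, false)
      else ((i, j + 1), false, true)
  | ((i, j), false, false) =>
      if i.val = 0 then ((i, j - 1), true, false)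
      else ((⟨i.val - 1, lt_of_le_of_lt (Nat.sub_le _ _) i.isLt⟩, j), true, true)
  | ((i, j), false, true) =>
      if h : i.val + 1 < n then ((⟨i.val + 1, h⟩, j - 1), true, false)
      else ((i, j - 1), true, true)

/-- Smoothings. At a crossing `e = (i, j)` the two strands are smoothed vertically
(bottom-left with top-left, bottom-right with top-right) iff (`i ≡ q mod 2` iff `e ∈ T`), and
horizontally (left with right, at the bottom and at the top) otherwise. -/
def smo {n M : ℕ} (q : ℕ) (T : Finset (Cr n M)) (p : Pt n M) : Pt n M :=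
  if (p.1.1.val % 2 = q ↔ p.1 ∈ T) then (p.1, !p.2.1, p.2.2) else (p.1, p.2.1, !p.2.2)

/-- Number of closed curves of the state. -/
noncomputable def loops {n M : ℕ} (q : ℕ) (T : Finset (Cr n M)) : ℕ :=
  Nat.card (Quot (Rel edge (smo q T)))

theorem edge_edge {n M : ℕ} (p : Pt n M) : edge (edge p) = p := by
  obtain ⟨⟨i, j⟩, t, r⟩ := p
  have hi := i.isLt
  have a1 : i.val ≠ 0 → i.val - 1 + 1 = i.val := by omega
  cases t <;> cases r <;> simp only [edge] <;> split_ifs <;>
    simp_all [Fin.ext_iff] <;> (try omega)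

theorem smo_smo {n M : ℕ} (q : ℕ) (T : Finset (Cr n M)) (p : Pt n M) :
    smo q T (smo q T p) = p := by
  obtain ⟨e, t, r⟩ := p
  simp only [smo]
  by_cases h : (e.1.val % 2 = q ↔ e ∈ T) <;> simp [h]

/-- orientation -/
def inn {n M : ℕ} (q : ℕ) (p : Pt n M) : Bool :=
  xor (decide (p.1.1.val % 2 = q)) (p.2.1 == p.2.2)

theorem inn_smo {n M : ℕ} (q : ℕ) (T : Finset (Cr n M)) (p : Pt n M) :
    inn q (smo q T p) = !inn q p := by
  obtain ⟨e, t, r⟩ := p
  simp only [smo]
  by_cases h : (e.1.val % 2 = q ↔ e ∈ T)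
  · rw [if_pos h]; simp only [inn]
    cases t <;> cases r <;> simp
  · rw [if_neg h]; simp only [inn]
    cases t <;> cases r <;> simp

theorem inn_edge {n M : ℕ} (q : ℕ) (hq : q < 2) (p : Pt n M) :
    inn q (edge p) = !inn q p := by
  obtain ⟨⟨i, j⟩, t, r⟩ := p
  have hi := i.isLt
  have key : ∀ a b : ℕ, a % 2 ≠ b % 2 → decide (a % 2 = q) = !decide (b % 2 = q) := by
    intro a b hab
    by_cases h1 : a % 2 = q
    · have h2 : ¬ b % 2 = q := by omega
      simp [h1, h2]
    · have h2 : b % 2 = q := by omega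
      simp [h1, h2]
  cases t <;> cases r <;> simp only [edge] <;> split_ifs with h <;> simp only [inn]
  · simp
  · rw [key (i.val - 1) i.val (by omega)]; simp
  · rw [key (i.val + 1) i.val (by omega)]; simp
  · simp
  · simp
  · rw [key (i.val - 1) i.val (by omega)]; simp
  · rw [key (i.val + 1) i.val (by omega)]; simp
  · simp

/-- the face of the colour `q` next to an end (column, row) -/
def fc {n M : ℕ} (q : ℕ) (p : Pt n M) : ℕ × ZMod (M + 1) :=
  if p.1.1.val % 2 = q then
    (if p.2.1 then (p.1.1.val + 1, p.1.2) else (p.1.1.val + 1, p.1.2 - 1))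
  else
    (if p.2.2 then (if p.1.1.val + 1 = n then (n + 1, 0) else (p.1.1.val + 2, p.1.2 - 1))
      else (if p.1.1.val = 0 then (0, 0) else (p.1.1.val, p.1.2)))

theorem fc_edge {n M : ℕ} (q : ℕ) (hq : q < 2) (p : Pt n M) : fc q (edge p) = fc q p := by
  obtain ⟨⟨i, j⟩, t, r⟩ := p
  have hi := i.isLt
  have a1 : i.val ≠ 0 → i.val - 1 + 1 = i.val := by omega
  have a2 : i.val ≠ 0 → i.val - 1 + 2 = i.val + 1 := by omega
  have a3 : ¬ i.val + 1 < n → i.val + 1 = n := by omega
  have a4 : i.val ≠ n := by omega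
  by_cases hc : i.val % 2 = q
  · have h1 : i.val ≠ 0 → ¬ (i.val - 1) % 2 = q := by omega
    have h2 : ¬ (i.val + 1) % 2 = q := by omega
    cases t <;> cases r <;> simp only [edge] <;> split_ifs with h
    · simp [fc, hc]
    · simp [fc, hc, h1 h, a1 h, a2 h, a4]
    · simp [fc, hc, h2]
    · simp [fc, hc]
    · simp [fc, hc]
    · simp [fc, hc, h1 h, a1 h, a2 h, a4]
    · simp [fc, hc, h2]
    · simp [fc, hc]
  · have h1 : i.val ≠ 0 → (i.val - 1) % 2 = q := by omega
    have h2 : (i.val + 1) % 2 = q := by omega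
    cases t <;> cases r <;> simp only [edge] <;> split_ifs with h
    · simp [fc, hc, h]
    · simp [fc, hc, h1 h, a1 h, h]
    · have : ¬ i.val + 1 = n := by omega
      simp [fc, hc, h2, this]
    · simp [fc, hc, a3 h]
    · simp [fc, hc, h]
    · simp [fc, hc, h1 h, a1 h, h]
    · have : ¬ i.val + 1 = n := by omega
      simp [fc, hc, h2, this]
    · simp [fc, hc, a3 h]

/-- the two faces joined by a crossing -/
def en {n M : ℕ} (q : ℕ) (e : Cr n M) (b : Bool) : ℕ × ZMod (M + 1) := fc q (e, b, b)

theorem fc_eq {n M : ℕ} (q : ℕ) (e : Cr n M) (t r : Bool) :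
    fc q (e, t, r) = en q e (if e.1.val % 2 = q then t else r) := by
  by_cases hc : e.1.val % 2 = q <;> simp [en, fc, hc]

end Pool.Agent.X105.WK
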