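import Pool.Agent.X105.WK.Defs

namespace Pool.Agent.X105.WK

variable {n M : ℕ}

theorem smo_off (q : ℕ) (T : Finset (Cr n M)) (e : Cr n M) (p : Pt n M) (h : p.1 ≠ e) :
    smo q (insert e T) p = smo q T p := by
  simp only [smo, Finset.mem_insert, h, false_or]

theorem smo_c (q : ℕ) (T : Finset (Cr n M)) (e : Cr n M) (he : e ∉ T) (hc : e.1.val % 2 = q)
    (t r : Bool) : smo q T (e, t, r) = (e, t, !r) := by
  simp [smo, he, hc]

theorem smo_n (q : ℕ) (T : Finset (Cr n M)) (e : Cr n M) (he : e ∉ T) (hc : ¬ e.1.val % 2 = q)
    (t r : Bool) : smo q T (e, t, r) = (e, !t, r) := by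
  simp [smo, he, hc]

theorem smo_ci (q : ℕ) (T : Finset (Cr n M)) (e : Cr n M) (hc : e.1.val % 2 = q)
    (t r : Bool) : smo q (insert e T) (e, t, r) = (e, !t, r) := by
  simp [smo, hc]

theorem smo_ni (q : ℕ) (T : Finset (Cr n M)) (e : Cr n M) (hc : ¬ e.1.val % 2 = q)
    (t r : Bool) : smo q (insert e T) (e, t, r) = (e, t, !r) := by
  simp [smo, hc]

theorem ne_corner {e : Cr n M} {p : Pt n M} (h1 : p ≠ (e, true, false)) (h2 : p ≠ (e, true, true))
    (h3 : p ≠ (e, false, true)) (h4 : p ≠ (e, false, false)) : p.1 ≠ e := by
  rintro rfl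
  obtain ⟨e, t, r⟩ := p
  cases t <;> cases r <;> simp_all

theorem step_le (q : ℕ) (T : Finset (Cr n M)) (e : Cr n M) (he : e ∉ T) :
    loops q T ≤ loops q (insert e T) + 1 ∧ loops q (insert e T) ≤ loops q T + 1 := by
  unfold loops
  by_cases hc : e.1.val % 2 = q
  · constructor
    · apply card_le_succ edge (smo q T) (smo q (insert e T)) (e, true, false) (e, true, true)
        (e, false, true) (e, false, false)
      · rw [smo_c q T e he hc]; rfl
      · rw [smo_c q T e he hc]; rfl
      · intro x h1 h2 h3 h4
        exact smo_off q T e x (ne_corner h1 h2 h3 h4)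
      · rintro x (rfl | rfl | rfl | rfl) <;> rw [smo_ci q T e hc] <;> simp
    · apply card_le_succ edge (smo q (insert e T)) (smo q T) (e, true, false) (e, false, false)
        (e, true, true) (e, false, true)
      · rw [smo_ci q T e hc]; rfl
      · rw [smo_ci q T e hc]; rfl
      · intro x h1 h2 h3 h4
        exact (smo_off q T e x (ne_corner h1 h3 h4 h2)).symm
      · rintro x (rfl | rfl | rfl | rfl) <;> rw [smo_c q T e he hc] <;> simp
  · constructor
    · apply card_le_succ edge (smo q T) (smo q (insert e T)) (e, true, false) (e, false, false)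
        (e, true, true) (e, false, true)
      · rw [smo_n q T e he hc]; rfl
      · rw [smo_n q T e he hc]; rfl
      · intro x h1 h2 h3 h4
        exact smo_off q T e x (ne_corner h1 h3 h4 h2)
      · rintro x (rfl | rfl | rfl | rfl) <;> rw [smo_ni q T e hc] <;> simp
    · apply card_le_succ edge (smo q (insert e T)) (smo q T) (e, true, false) (e, true, true)
        (e, false, true) (e, false, false)
      · rw [smo_ni q T e hc]; rfl
      · rw [smo_ni q T e hc]; rfl
      · intro x h1 h2 h3 h4
        exact (smo_off q T e x (ne_corner h1 h2 h3 h4)).symm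
      · rintro x (rfl | rfl | rfl | rfl) <;> rw [smo_n q T e he hc] <;> simp

/-- the graph on the faces of colour `q` whose edges are the crossings in `T` -/
def G (q : ℕ) (T : Finset (Cr n M)) : SimpleGraph (ℕ × ZMod (M + 1)) where
  Adj x y := x ≠ y ∧ ∃ p ∈ T, (en q p false = x ∧ en q p true = y) ∨
    (en q p false = y ∧ en q p true = x)
  symm := ⟨by
    rintro x y ⟨h, p, hp, h2⟩
    exact ⟨h.symm, p, hp, h2.symm⟩⟩
  loopless := ⟨by rintro x ⟨h, _⟩; exact h rfl⟩

theorem reach_en (q : ℕ) (T : Finset (Cr n M)) (e : Cr n M) (he : e ∈ T) (b : Bool) :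
    (G q T).Reachable (en q e b) (en q e (!b)) := by
  by_cases h : en q e b = en q e (!b)
  · rw [h]
  · apply SimpleGraph.Adj.reachable
    refine ⟨h, e, he, ?_⟩
    cases b
    · left; exact ⟨rfl, rfl⟩
    · right; exact ⟨rfl, rfl⟩

theorem reach_of_quot (q : ℕ) (hq : q < 2) (T : Finset (Cr n M)) (p p' : Pt n M)
    (h : Quot.mk (Rel edge (smo q T)) p = Quot.mk _ p') :
    (G q T).Reachable (fc q p) (fc q p') := by
  have hh : ∀ x y, Rel edge (smo q T) x y →
      (G q T).connectedComponentMk (fc q x) = (G q T).connectedComponentMk (fc q y) := by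
    rintro x y (rfl | rfl)
    · rw [fc_edge q hq]
    · apply SimpleGraph.ConnectedComponent.sound
      obtain ⟨e, t, r⟩ := x
      simp only [smo]
      by_cases hc : e.1.val % 2 = q <;> by_cases he : e ∈ T
      · simp only [hc, he, iff_true, if_true]
        rw [fc_eq, fc_eq]; simp only [hc, if_true]
        exact reach_en q T e he t
      · simp only [hc, he, iff_false, not_true, if_false]
        rw [fc_eq, fc_eq]; simp only [hc, if_true]; rfl
      · simp only [hc, he, iff_true, if_false]
        rw [fc_eq, fc_eq]; simp only [hc, if_false]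
        exact reach_en q T e he r
      · simp only [hc, he, iff_false, not_false_iff, if_true]
        rw [fc_eq, fc_eq]; simp only [hc, if_false]; rfl
  have := congrArg (Quot.lift (fun p => (G q T).connectedComponentMk (fc q p)) hh) h
  exact SimpleGraph.ConnectedComponent.exact this

theorem merge_step (q : ℕ) (hq : q < 2) (T : Finset (Cr n M)) (e : Cr n M) (he : e ∉ T)
    (hr : ¬ (G q T).Reachable (en q e false) (en q e true)) :
    loops q (insert e T) + 1 = loops q T := by
  apply le_antisymm _ (step_le q T e he).1
  unfold loops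
  have ei : Function.Injective (edge : Pt n M → Pt n M) :=
    Function.LeftInverse.injective edge_edge
  have si : Function.Injective (smo q T) := Function.LeftInverse.injective (smo_smo q T)
  by_cases hc : e.1.val % 2 = q
  · apply merge edge (smo q T) (smo q (insert e T)) (e, true, false) (e, true, true)
      (e, false, true) (e, false, false) (inn q) ei si (inn_edge q hq) (inn_smo q T)
    any_goals (rw [smo_c q T e he hc]; rfl)
    any_goals (rw [smo_ci q T e hc]; rfl)
    · intro x h1 h2 h3 h4
      exact smo_off q T e x (ne_corner h1 h2 h3 h4)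
    · simp [inn, hc]
    · simp [inn, hc]
    · intro h
      have := reach_of_quot q hq T _ _ h
      rw [fc_eq, fc_eq] at this
      simp only [hc, if_true] at this
      exact hr this.symm
  · apply merge edge (smo q T) (smo q (insert e T)) (e, true, true) (e, false, true)
      (e, false, false) (e, true, false) (inn q) ei si (inn_edge q hq) (inn_smo q T)
    any_goals (rw [smo_n q T e he hc]; rfl)
    any_goals (rw [smo_ni q T e hc]; rfl)
    · intro x h1 h2 h3 h4
      exact smo_off q T e x (ne_corner h4 h1 h2 h3)
    · simp [inn, hc]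
    · simp [inn, hc]
    · intro h
      have := reach_of_quot q hq T _ _ h
      rw [fc_eq, fc_eq] at this
      simp only [hc, if_false] at this
      exact hr this.symm

end Pool.Agent.X105.WK
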