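import Pool.Agent.X105.WK.Sum

namespace Pool.Agent.X105.WK
open scoped BigOperators
open Finset Filter Topology

theorem mpos (M : ℕ) : (0 : ℝ) < (M : ℝ) + 1 := by positivity

theorem inv_lim : Tendsto (fun M : ℕ => (1 : ℝ) / ((M : ℝ) + 1)) atTop (𝓝 0) :=
  tendsto_one_div_add_atTop_nhds_zero_nat

theorem sub_lim (a : ℕ → ℕ) (α : ℝ) (h : Tendsto (fun M : ℕ => (a M : ℝ) / ((M : ℝ) + 1)) atTop (𝓝 α))
    (i : ℕ) : Tendsto (fun M : ℕ => ((a M - i : ℕ) : ℝ) / ((M : ℝ) + 1)) atTop (𝓝 α) := by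
  have h1 : Tendsto (fun M : ℕ => (a M : ℝ) / ((M : ℝ) + 1) - i * (1 / ((M : ℝ) + 1))) atTop
      (𝓝 α) := by
    have := h.sub (inv_lim.const_mul (i : ℝ))
    simpa using this
  refine tendsto_of_tendsto_of_tendsto_of_le_of_le h1 h ?_ ?_
  · intro M
    simp only
    have : (a M : ℝ) ≤ ((a M - i : ℕ) : ℝ) + i := by
      have : a M ≤ (a M - i) + i := by omega
      exact_mod_cast this
    rw [mul_one_div, ← sub_div]
    exact div_le_div_of_nonneg_right (by linarith) (mpos M).le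
  · intro M
    simp only
    exact div_le_div_of_nonneg_right (by exact_mod_cast Nat.sub_le _ _) (mpos M).le

theorem choose_lim (a : ℕ → ℕ) (α : ℝ)
    (h : Tendsto (fun M : ℕ => (a M : ℝ) / ((M : ℝ) + 1)) atTop (𝓝 α)) (i : ℕ) :
    Tendsto (fun M : ℕ => ((a M).choose i : ℝ) / ((M : ℝ) + 1) ^ i) atTop
      (𝓝 (α ^ i / (i.factorial : ℝ))) := by
  induction i with
  | zero => simp
  | succ i ih =>
    have h1 := (ih.mul (sub_lim a α h i)).div_const ((i : ℝ) + 1)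
    have h2 : α ^ i / (i.factorial : ℝ) * α / ((i : ℝ) + 1) = α ^ (i + 1) / ((i + 1).factorial : ℝ) := by
      rw [Nat.factorial_succ]
      push_cast
      have : (i.factorial : ℝ) ≠ 0 := by exact_mod_cast Nat.factorial_ne_zero i
      have : (i : ℝ) + 1 ≠ 0 := (mpos i).ne'
      field_simp
      try ring
    rw [h2] at h1
    refine h1.congr ?_
    intro M
    have h3 : ((a M).choose (i + 1) : ℝ) * ((i : ℝ) + 1) = (a M).choose i * ((a M - i : ℕ) : ℝ) := by
      exact_mod_cast Nat.choose_succ_right_eq (a M) i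
    have h4 : (i : ℝ) + 1 ≠ 0 := (mpos i).ne'
    have h5 : (M : ℝ) + 1 ≠ 0 := (mpos M).ne'
    have h6 : ((a M).choose (i + 1) : ℝ) = (a M).choose i * ((a M - i : ℕ) : ℝ) / ((i : ℝ) + 1) := by
      rw [eq_div_iff h4, h3]
    rw [h6]
    field_simp
    ring

theorem V_lim (n q : ℕ) (hn : 1 ≤ n) (hq : q < 2) :
    Tendsto (fun M : ℕ => (loops q (∅ : Finset (Cr n M)) : ℝ) / ((M : ℝ) + 1)) atTop
      (𝓝 (vc n q : ℝ)) := by
  have h1 : Tendsto (fun _ : ℕ => (vc n q : ℝ)) atTop (𝓝 (vc n q : ℝ)) := tendsto_const_nhds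
  have h2 : Tendsto (fun M : ℕ => (vc n q : ℝ) + 2 * (1 / ((M : ℝ) + 1))) atTop
      (𝓝 (vc n q : ℝ)) := by
    have := h1.add (inv_lim.const_mul (2 : ℝ))
    simpa using this
  refine tendsto_of_tendsto_of_tendsto_of_le_of_le h1 h2 ?_ ?_
  · intro M
    simp only
    rw [le_div_iff₀ (mpos M)]
    exact_mod_cast V_lower (n := n) (M := M) q hq
  · intro M
    simp only
    rw [div_le_iff₀ (mpos M), add_mul]
    have h3 : (2 : ℝ) * (1 / ((M : ℝ) + 1)) * ((M : ℝ) + 1) = 2 := by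
      have := (mpos M).ne'
      field_simp
    rw [h3]
    exact_mod_cast V_upper (n := n) (M := M) q hq hn

theorem N_lim (n : ℕ) :
    Tendsto (fun M : ℕ => ((n * (M + 1) : ℕ) : ℝ) / ((M : ℝ) + 1)) atTop (𝓝 (n : ℝ)) := by
  refine tendsto_const_nhds.congr ?_
  intro M
  push_cast
  have := (mpos M).ne'
  field_simp

/-- main sum -/
noncomputable def SS (n q k M : ℕ) : ℝ := ∑ j ∈ Finset.range (k + 1),
  (-1) ^ j * (((n * (M + 1)).choose j : ℝ) *
        ((loops q (∅ : Finset (Cr n M)) - 1 - j).choose (k - j) : ℝ))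

theorem SS_lim (n q k : ℕ) (hn : 1 ≤ n) (hq : q < 2) :
    Tendsto (fun M : ℕ => SS n q k M / ((M : ℝ) + 1) ^ k) atTop
      (𝓝 (((vc n q : ℝ) - n) ^ k / (k.factorial : ℝ))) := by
  have h1 : ((vc n q : ℝ) - n) ^ k / (k.factorial : ℝ) = ∑ j ∈ Finset.range (k + 1),
      (-1) ^ j * (((n : ℝ) ^ j / (j.factorial : ℝ)) *
        ((vc n q : ℝ) ^ (k - j) / ((k - j).factorial : ℝ))) := by
    have : (vc n q : ℝ) - n = -n + vc n q := by ring
    rw [this, add_pow, Finset.sum_div]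
    apply Finset.sum_congr rfl
    intro j hj
    rw [Finset.mem_range] at hj
    have hc : ((k.choose j : ℕ) : ℝ) = (k.factorial : ℝ) / ((j.factorial : ℝ) * ((k - j).factorial : ℝ)) :=
      Nat.cast_choose ℝ (by omega)
    rw [hc, neg_pow]
    have a1 : (k.factorial : ℝ) ≠ 0 := by exact_mod_cast Nat.factorial_ne_zero k
    have a2 : (j.factorial : ℝ) ≠ 0 := by exact_mod_cast Nat.factorial_ne_zero j
    have a3 : ((k - j).factorial : ℝ) ≠ 0 := by exact_mod_cast Nat.factorial_ne_zero (k - j)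
    field_simp
  rw [h1]
  have h2 : Tendsto (fun M : ℕ => ∑ j ∈ Finset.range (k + 1),
      (-1 : ℝ) ^ j * ((((n * (M + 1)).choose j : ℝ) / ((M : ℝ) + 1) ^ j) *
        (((loops q (∅ : Finset (Cr n M)) - 1 - j).choose (k - j) : ℝ) / ((M : ℝ) + 1) ^ (k - j))))
      atTop (𝓝 (∑ j ∈ Finset.range (k + 1),
      (-1) ^ j * (((n : ℝ) ^ j / (j.factorial : ℝ)) *
        ((vc n q : ℝ) ^ (k - j) / ((k - j).factorial : ℝ))))) := by
    apply tendsto_finsetSum
    intro j _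
    apply Tendsto.const_mul
    apply Tendsto.mul
    · exact choose_lim (fun M => n * (M + 1)) n (N_lim n) j
    · apply choose_lim (fun M => loops q (∅ : Finset (Cr n M)) - 1 - j) (vc n q)
      apply sub_lim (fun M => loops q (∅ : Finset (Cr n M)) - 1)
      exact sub_lim _ _ (V_lim n q hn hq) 1
  refine h2.congr ?_
  intro M
  rw [SS, Finset.sum_div]
  apply Finset.sum_congr rfl
  intro j hj
  rw [Finset.mem_range] at hj
  have h5 : ((M : ℝ) + 1) ^ k = ((M : ℝ) + 1) ^ j * ((M : ℝ) + 1) ^ (k - j) := by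
    rw [← pow_add]; congr 1; omega
  rw [h5]
  have := (mpos M).ne'
  field_simp

theorem vc_pos (n q : ℕ) (hn : 2 ≤ n) (hq : q < 2) : 1 ≤ vc n q := by
  rw [vc, Nat.succ_le_iff, Finset.card_pos]
  refine ⟨⟨q, by omega⟩, ?_⟩
  simp; omega

theorem abs_sum_mt (n q k M : ℕ) (hn : 2 ≤ n) (hq : q < 2) (hM : k ≤ M) :
    |((∑ T : Finset (Cr n M), mt q k T : ℤ) : ℝ)| = |SS n q k M| := by
  have hV := V_lower (n := n) (M := M) q hq
  have hv := vc_pos n q hn hq
  have hV2 : k + 1 ≤ loops q (∅ : Finset (Cr n M)) := by nlinarith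
  rw [sum_mt]
  set V := loops q (∅ : Finset (Cr n M)) with hVd
  have : ((∑ j ∈ Finset.range (k + 1), ((n * (M + 1)).choose j : ℤ) *
      ((-1) ^ (V - 1 - j) * ((V - 1 - j).choose (k - j) : ℤ)) : ℤ) : ℝ) =
      (-1) ^ (V - 1) * SS n q k M := by
    push_cast
    rw [SS, Finset.mul_sum]
    apply Finset.sum_congr rfl
    intro j hj
    rw [Finset.mem_range] at hj
    have h1 : (-1 : ℝ) ^ (V - 1 - j) = (-1) ^ (V - 1) * (-1) ^ j := by
      have : V - 1 = (V - 1 - j) + j := by omega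
      conv_rhs => rw [this, pow_add, mul_assoc, ← pow_add, ← two_mul, pow_mul]
      norm_num
    rw [h1]
    ring
  rw [this, abs_mul, abs_pow, abs_neg, abs_one, one_pow, one_mul]

theorem KK_lim (n q k : ℕ) (hn : 2 ≤ n) (hq : q < 2) (hk : 1 ≤ k) :
    Tendsto (fun M : ℕ => |(KK n M q k : ℝ)| / ((M : ℝ) + 1) ^ k) atTop
      (𝓝 (((n : ℝ) - vc n q) ^ k / (k.factorial : ℝ))) := by
  have hvn : (vc n q : ℝ) ≤ n := by
    have : vc n q ≤ n := by
      unfold vc
      exact (Finset.card_filter_le _ _).trans (by simp)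
    exact_mod_cast this
  have h1 := (SS_lim n q k (by omega) hq).abs
  have h2 : |((vc n q : ℝ) - n) ^ k / (k.factorial : ℝ)| = ((n : ℝ) - vc n q) ^ k / (k.factorial : ℝ) := by
    rw [abs_div, abs_pow, abs_sub_comm, abs_of_nonneg (by linarith : (0 : ℝ) ≤ n - vc n q),
      Nat.abs_cast]
  rw [h2] at h1
  -- the error
  set C : ℝ := 2 * (Cst n k : ℝ) * ((vc n q : ℝ) + 2 + n) ^ (k - 1) with hC
  have herr : Tendsto (fun M : ℕ => |(KK n M q k : ℝ)| / ((M : ℝ) + 1) ^ k -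
      |SS n q k M / ((M : ℝ) + 1) ^ k|) atTop (𝓝 0) := by
    have h3 : Tendsto (fun M : ℕ => C * (1 / ((M : ℝ) + 1))) atTop (𝓝 0) := by
      have := inv_lim.const_mul C
      simpa using this
    apply squeeze_zero_norm' _ h3
    filter_upwards [eventually_ge_atTop (k + 2)] with M hM
    have hp := mpos M
    have hpk : (0 : ℝ) < ((M : ℝ) + 1) ^ k := by positivity
    rw [abs_div, abs_of_pos hpk, ← sub_div, Real.norm_eq_abs, abs_div, abs_of_pos hpk,
      ← abs_sum_mt n q k M hn hq (by omega)]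
    have h4 := KK_close (M := M) hn (by omega : 2 ≤ M) q hq k
    have h5 : |((KK n M q k : ℤ) : ℝ) - ((∑ T : Finset (Cr n M), mt q k T : ℤ) : ℝ)| ≤
        2 * ((Cst n k : ℝ) * (XX n M q : ℝ) ^ (k - 1)) := by exact_mod_cast h4
    have h6 := (abs_abs_sub_abs_le ((KK n M q k : ℤ) : ℝ)
      ((∑ T : Finset (Cr n M), mt q k T : ℤ) : ℝ)).trans h5
    have h7 : (XX n M q : ℝ) ≤ ((vc n q : ℝ) + 2 + n) * ((M : ℝ) + 1) := by
      have a1 := V_upper (n := n) (M := M) q hq (by omega)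
      have a2 : XX n M q ≤ (vc n q + 2 + n) * (M + 1) := by
        unfold XX; nlinarith
      exact_mod_cast a2
    have h8 : (XX n M q : ℝ) ^ (k - 1) ≤ ((vc n q : ℝ) + 2 + n) ^ (k - 1) * ((M : ℝ) + 1) ^ (k - 1) := by
      rw [← mul_pow]
      exact pow_le_pow_left₀ (by positivity) h7 _
    have h9 : ((M : ℝ) + 1) ^ k = ((M : ℝ) + 1) ^ (k - 1) * ((M : ℝ) + 1) := by
      rw [← pow_succ]; congr 1; omega
    rw [div_le_iff₀ hpk]
    have h10 : C * (1 / ((M : ℝ) + 1)) * ((M : ℝ) + 1) ^ k = C * ((M : ℝ) + 1) ^ (k - 1) := by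
      rw [h9]
      have := hp.ne'
      field_simp
    rw [h10, hC]
    calc _ ≤ 2 * ((Cst n k : ℝ) * (XX n M q : ℝ) ^ (k - 1)) := h6
      _ ≤ 2 * ((Cst n k : ℝ) * (((vc n q : ℝ) + 2 + n) ^ (k - 1) * ((M : ℝ) + 1) ^ (k - 1))) := by
          gcongr
      _ = _ := by ring
  have := herr.add h1
  simpa using this

end Pool.Agent.X105.WK
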