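import Pool.Agent.X105.WK.Lim
import Mathlib.Algebra.Polynomial.Laurent

/-! The Kauffman bracket and the Jones polynomial of the weaving link `W(n+1, M+1)`, the twist
numbers, and their computation. -/

namespace Pool.Agent.X105.WK
open scoped BigOperators
open Finset Filter Topology LaurentPolynomial

/-- The writhe of the closed braid diagram: the crossing `(i, j)` is positive iff `i` is even. -/
def writhe (n M : ℕ) : ℤ := ∑ e : Cr n M, if e.1.val % 2 = 0 then 1 else -1

/-- The Kauffman bracket of the closed braid diagram of `W(n+1, M+1)`, in the variable `A = T 1`;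
`S` is the set of the crossings which are `B`-smoothed. -/
noncomputable def bracket (n M : ℕ) : LaurentPolynomial ℤ :=
  ∑ S : Finset (Cr n M), T (((n * (M + 1) : ℕ) : ℤ) - 2 * (S.card : ℤ)) *
    (-T 2 - T (-2)) ^ (loops 1 S - 1)

/-- `(-A³)^{-w} ⟨D⟩`, the Jones polynomial at `t = A^{-4}`. -/
noncomputable def jonesA (n M : ℕ) : LaurentPolynomial ℤ :=
  C ((-1) ^ (writhe n M).natAbs) * T (-3 * writhe n M) * bracket n M

/-- The `k`-th twist number, read off from the Jones polynomial at `t = A^{-4}`. -/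
noncomputable def twist (k : ℕ) (P : LaurentPolynomial ℤ) : ℤ :=
  |P.coeff (sInf {a | P.coeff a ≠ 0} + 4 * k)| + |P.coeff (sSup {a | P.coeff a ≠ 0} - 4 * k)|

theorem pow_expand (x : ℤ) (y : ℕ) :
    (T x * (-T 2 - T (-2)) ^ y : LaurentPolynomial ℤ) =
      ∑ i ∈ Finset.range (y + 1), C ((-1) ^ y * (y.choose i : ℤ)) * T (x + 2 * y - 4 * i) := by
  have h1 : (-T 2 - T (-2) : LaurentPolynomial ℤ) = C (-1) * (T (-2) + T 2) := by
    rw [map_neg, map_one]; ring
  rw [h1, mul_pow, add_pow, Finset.mul_sum, Finset.mul_sum]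
  apply Finset.sum_congr rfl
  intro i hi
  rw [Finset.mem_range] at hi
  rw [T_pow, T_pow, ← map_pow]
  have h2 : (x + 2 * y - 4 * i : ℤ) = x + ((i : ℤ) * (-2) + ((y - i : ℕ) : ℤ) * 2) := by
    push_cast [Nat.cast_sub (by omega : i ≤ y)]
    ring
  rw [h2, T_add, T_add, map_mul]
  have h3 : ((y.choose i : ℕ) : LaurentPolynomial ℤ) = C ((y.choose i : ℕ) : ℤ) := by
    simp
  rw [h3]
  ring

theorem coeff_CT (c a b : ℤ) : (C c * T b : LaurentPolynomial ℤ).coeff a = if b = a then c else 0 := by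
  rw [← single_eq_C_mul_T]
  exact Finsupp.single_apply

theorem coeff_bracket (n M : ℕ) (hn : 1 ≤ n) (a : ℤ) : (bracket n M).coeff a =
    ∑ S : Finset (Cr n M), ∑ i ∈ Finset.range (loops 1 S),
      if ((n * (M + 1) : ℕ) : ℤ) - 2 * (S.card : ℤ) + 2 * ((loops 1 S - 1 : ℕ) : ℤ) - 4 * i = a then
        (-1) ^ (loops 1 S - 1) * ((loops 1 S - 1).choose i : ℤ) else 0 := by
  unfold bracket
  rw [AddMonoidAlgebra.coeff_sum, Finsupp.finsetSum_apply]
  apply Finset.sum_congr rfl
  intro S _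
  have hc := c_pos hn 1 S
  rw [pow_expand, AddMonoidAlgebra.coeff_sum, Finsupp.finsetSum_apply]
  have : loops 1 S - 1 + 1 = loops 1 S := by omega
  rw [this]
  apply Finset.sum_congr rfl
  intro i _
  rw [coeff_CT]

theorem coeff_top (n M k : ℕ) (hn : 1 ≤ n) :
    (bracket n M).coeff (((n * (M + 1) : ℕ) : ℤ) + 2 * (loops 1 (∅ : Finset (Cr n M)) : ℤ) - 2 - 4 * k) =
      KK n M 1 k := by
  rw [coeff_bracket n M hn, KK]
  apply Finset.sum_congr rfl
  intro S _
  have hc := c_pos hn 1 S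
  unfold tm
  apply Finset.sum_congr rfl
  intro i _
  congr 1
  rw [eq_iff_iff]
  push_cast [Nat.cast_sub hc]
  constructor
  · intro h; omega
  · intro h; omega

theorem loops_compl {n M : ℕ} [DecidableEq (Cr n M)] (S : Finset (Cr n M)) : loops 1 S = loops 0 Sᶜ := by
  have : smo 1 S = smo 0 Sᶜ := by
    funext p
    unfold smo
    have h : (p.1.1.val % 2 = 1 ↔ p.1 ∈ S) ↔ (p.1.1.val % 2 = 0 ↔ p.1 ∈ Sᶜ) := by
      rw [Finset.mem_compl]
      by_cases h1 : p.1 ∈ S
      · simp only [h1, iff_true, not_true, iff_false]; omega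
      · simp only [h1, iff_false, not_false_iff, iff_true]; omega
    by_cases h2 : (p.1.1.val % 2 = 1 ↔ p.1 ∈ S)
    · rw [if_pos h2, if_pos (h.1 h2)]
    · rw [if_neg h2, if_neg (fun h3 => h2 (h.2 h3))]
  unfold loops
  rw [this]

theorem coeff_bot (n M k : ℕ) (hn : 1 ≤ n) :
    (bracket n M).coeff
      (-(((n * (M + 1) : ℕ) : ℤ) + 2 * (loops 0 (∅ : Finset (Cr n M)) : ℤ) - 2 - 4 * k)) =
      KK n M 0 k := by
  classical
  rw [coeff_bracket n M hn, KK]
  refine Finset.sum_bij' (fun S _ => Sᶜ) (fun S _ => Sᶜ) (fun _ _ => Finset.mem_univ _)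
    (fun _ _ => Finset.mem_univ _) (fun S _ => compl_compl S) (fun S _ => compl_compl S) ?_
  · intro S _
    have hc := c_pos hn 1 S
    have hl := loops_compl S
    have hcc : (Sᶜ).card + S.card = n * (M + 1) := by
      rw [← card_cr (n := n) (M := M), ← Finset.card_compl_add_card S]
    unfold tm
    rw [← hl]
    rw [← Finset.sum_range_reflect]
    apply Finset.sum_congr rfl
    intro i hi
    rw [Finset.mem_range] at hi
    rw [Nat.choose_symm (by omega : i ≤ loops 1 S - 1)]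
    congr 1
    rw [eq_iff_iff]
    have hcc2 : ((Sᶜ).card : ℤ) + (S.card : ℤ) = ((n * (M + 1) : ℕ) : ℤ) := by exact_mod_cast hcc
    have e1 : ((loops 1 S - 1 - i : ℕ) : ℤ) = (loops 1 S : ℤ) - 1 - i := by omega
    have e2 : ((loops 1 S - 1 : ℕ) : ℤ) = (loops 1 S : ℤ) - 1 := by omega
    rw [e1, e2]
    constructor
    · intro h; omega
    · intro h; omega

theorem not_reach {n M : ℕ} (q : ℕ) (x y : ℕ × ZMod (M + 1)) (hxy : x ≠ y) :
    ¬ (G q (∅ : Finset (Cr n M))).Reachable x y := by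
  rintro ⟨w⟩
  cases w with
  | nil => exact hxy rfl
  | cons h _ =>
    obtain ⟨_, p, hp, _⟩ := id h
    simp at hp

theorem mx_pos {n M : ℕ} (hM : 1 ≤ M) (q : ℕ) (hq : q < 2) (T : Finset (Cr n M))
    (hT : T.Nonempty) : 1 ≤ (mx q T).card := by
  by_contra h0
  have h1 : mx q T = ∅ := by
    rw [← Finset.card_eq_zero]; omega
  obtain ⟨e, he⟩ := hT
  have h2 := mx_max q T e he (by rw [h1]; simp)
  apply h2
  rw [h1]
  have h3 := merge_step q hq (∅ : Finset (Cr n M)) e (by simp)
    (not_reach q _ _ (en_ne hM q e))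
  unfold good
  rw [Finset.card_insert_of_notMem (by simp)]
  simpa using h3

theorem KK_zero (n M q : ℕ) (hM : 1 ≤ M) (hn : 1 ≤ n) (hq : q < 2) : KK n M q 0 ≠ 0 := by
  classical
  have h : KK n M q 0 = (-1) ^ (loops q (∅ : Finset (Cr n M)) - 1) := by
    unfold KK
    rw [Finset.sum_eq_single (∅ : Finset (Cr n M))]
    · rw [tm_eq_single q 0 ∅ 0 (by simp) hn]
      simp
    · intro T _ hT
      apply tm_eq_zero
      intro i0
      have h1 := rho q T
      have h2 := mx_pos hM q hq T (Finset.nonempty_iff_ne_empty.2 hT)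
      omega
    · intro h; exact absurd (Finset.mem_univ _) h
  rw [h]
  exact pow_ne_zero _ (by norm_num)

/-- the largest exponent -/
theorem top_greatest (n M : ℕ) (hn : 1 ≤ n) (hM : 1 ≤ M) :
    IsGreatest {a | (bracket n M).coeff a ≠ 0}
      (((n * (M + 1) : ℕ) : ℤ) + 2 * (loops 1 (∅ : Finset (Cr n M)) : ℤ) - 2) := by
  constructor
  · have h1 := coeff_top n M 0 hn
    rw [Set.mem_ofPred_eq]
    have h2 := KK_zero n M 1 hM hn (by norm_num)
    rw [← h1] at h2
    simpa using h2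
  · intro a ha
    by_contra hlt
    push Not at hlt
    apply ha
    rw [coeff_bracket n M hn]
    apply Finset.sum_eq_zero
    intro S _
    apply Finset.sum_eq_zero
    intro i hi
    rw [Finset.mem_range] at hi
    have hr := rho 1 S
    rw [if_neg]
    intro h
    omega

theorem bot_least (n M : ℕ) (hn : 1 ≤ n) (hM : 1 ≤ M) :
    IsLeast {a | (bracket n M).coeff a ≠ 0}
      (-(((n * (M + 1) : ℕ) : ℤ) + 2 * (loops 0 (∅ : Finset (Cr n M)) : ℤ) - 2)) := by
  classical
  constructor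
  · have h1 := coeff_bot n M 0 hn
    rw [Set.mem_ofPred_eq]
    have h2 := KK_zero n M 0 hM hn (by norm_num)
    rw [← h1] at h2
    simpa using h2
  · intro a ha
    by_contra hlt
    push Not at hlt
    apply ha
    rw [coeff_bracket n M hn]
    apply Finset.sum_eq_zero
    intro S _
    apply Finset.sum_eq_zero
    intro i hi
    rw [Finset.mem_range] at hi
    have hr := rho 0 Sᶜ
    rw [← loops_compl S] at hr
    have hcc : (Sᶜ).card + S.card = n * (M + 1) := by
      rw [← card_cr (n := n) (M := M), ← Finset.card_compl_add_card S]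
    have hcc2 : ((Sᶜ).card : ℤ) + (S.card : ℤ) = ((n * (M + 1) : ℕ) : ℤ) := by exact_mod_cast hcc
    rw [if_neg]
    intro h
    omega

theorem coeff_jonesA (n M : ℕ) (a : ℤ) : (jonesA n M).coeff a =
    (-1) ^ (writhe n M).natAbs * (bracket n M).coeff (a + 3 * writhe n M) := by
  unfold jonesA
  rw [mul_assoc, ← smul_eq_C_mul, AddMonoidAlgebra.coeff_smul_apply, smul_eq_mul]
  congr 1
  unfold T
  have : a + 3 * writhe n M = -(-3 * writhe n M) + a := by ring
  rw [this]
  exact (AddMonoidAlgebra.coeff_single_mul_apply _ _ _ _).trans (by simp)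

theorem supp_jonesA (n M : ℕ) (a : ℤ) : (jonesA n M).coeff a ≠ 0 ↔
    (bracket n M).coeff (a + 3 * writhe n M) ≠ 0 := by
  rw [coeff_jonesA]
  have : ((-1 : ℤ)) ^ (writhe n M).natAbs ≠ 0 := pow_ne_zero _ (by norm_num)
  constructor
  · intro h h2; rw [h2, mul_zero] at h; exact h rfl
  · intro h; exact mul_ne_zero this h

theorem abs_jonesA (n M : ℕ) (a : ℤ) : |(jonesA n M).coeff a| =
    |(bracket n M).coeff (a + 3 * writhe n M)| := by
  rw [coeff_jonesA, abs_mul, abs_pow, abs_neg, abs_one, one_pow, one_mul]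

theorem twist_eq (n M k : ℕ) (hn : 1 ≤ n) (hM : 1 ≤ M) :
    twist k (jonesA n M) = |KK n M 0 k| + |KK n M 1 k| := by
  have h1 : sSup {a | (jonesA n M).coeff a ≠ 0} =
      ((n * (M + 1) : ℕ) : ℤ) + 2 * (loops 1 (∅ : Finset (Cr n M)) : ℤ) - 2 - 3 * writhe n M := by
    apply IsGreatest.csSup_eq
    obtain ⟨g1, g2⟩ := top_greatest n M hn hM
    constructor
    · rw [Set.mem_ofPred_eq, supp_jonesA, sub_add_cancel]; exact g1
    · intro a ha
      rw [Set.mem_ofPred_eq, supp_jonesA] at ha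
      have := g2 ha
      linarith
  have h2 : sInf {a | (jonesA n M).coeff a ≠ 0} =
      -(((n * (M + 1) : ℕ) : ℤ) + 2 * (loops 0 (∅ : Finset (Cr n M)) : ℤ) - 2) - 3 * writhe n M := by
    apply IsLeast.csInf_eq
    obtain ⟨g1, g2⟩ := bot_least n M hn hM
    constructor
    · rw [Set.mem_ofPred_eq, supp_jonesA, sub_add_cancel]; exact g1
    · intro a ha
      rw [Set.mem_ofPred_eq, supp_jonesA] at ha
      have := g2 ha
      linarith
  unfold twist
  rw [h1, h2, abs_jonesA, abs_jonesA, ← coeff_top n M k hn, ← coeff_bot n M k hn]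
  congr 3 <;> ring

theorem vc_sum (n q : ℕ) : vc n q = ∑ i ∈ Finset.range n, if i % 2 = q then 1 else 0 := by
  unfold vc
  rw [Finset.card_filter]
  exact Fin.sum_univ_eq_sum_range (fun i => if i % 2 = q then 1 else 0) n

theorem vc_one (n : ℕ) : vc n 1 = n / 2 := by
  rw [vc_sum]
  induction n with
  | zero => rfl
  | succ n ih =>
    rw [Finset.sum_range_succ, ih]
    split_ifs <;> omega

theorem vc_zero (n : ℕ) : vc n 0 = (n + 1) / 2 := by
  rw [vc_sum]
  induction n with
  | zero => rfl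
  | succ n ih =>
    rw [Finset.sum_range_succ, ih]
    split_ifs <;> omega

theorem dr_one (n : ℕ) (d r : ℝ) (hd : d = (1 - (-1) ^ n) / 2) (hr : r = (n - d) / 2) :
    (n : ℝ) - vc n 1 = r + d ∧ (n : ℝ) - vc n 0 = r := by
  rw [vc_one, vc_zero]
  rcases Nat.even_or_odd n with h | h
  · have h1 : ((-1 : ℝ)) ^ n = 1 := h.neg_one_pow
    obtain ⟨l, hl⟩ := h
    have e1 : n / 2 = l := by omega
    have e2 : (n + 1) / 2 = l := by omega
    have e3 : (n : ℝ) = l + l := by exact_mod_cast hl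
    rw [h1] at hd
    rw [e1, e2, hr, hd, e3]
    constructor <;> ring
  · have h1 : ((-1 : ℝ)) ^ n = -1 := h.neg_one_pow
    obtain ⟨l, hl⟩ := h
    have e1 : n / 2 = l := by omega
    have e2 : (n + 1) / 2 = l + 1 := by omega
    have e3 : (n : ℝ) = 2 * l + 1 := by exact_mod_cast hl
    rw [h1] at hd
    rw [e1, e2, hr, hd, e3]
    push_cast
    constructor <;> ring

theorem main (n k : ℕ) (hn : 2 ≤ n) (hk : 1 ≤ k) (d r : ℝ) (hd : d = (1 - (-1) ^ n) / 2)
    (hr : r = (n - d) / 2) :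
    Tendsto (fun m : ℕ => (twist k (jonesA n (m - 1)) : ℝ) /
      ((((r + d) ^ k + r ^ k) * (m : ℝ) ^ k) / (k.factorial : ℝ))) atTop (𝓝 1) := by
  obtain ⟨e1, e2⟩ := dr_one n d r hd hr
  rw [← tendsto_add_atTop_iff_nat 1]
  have h1 := KK_lim n 1 k hn (by norm_num) hk
  have h0 := KK_lim n 0 k hn (by norm_num) hk
  rw [e1] at h1
  rw [e2] at h0
  have hr1 : 1 ≤ r := by
    rw [← e2, vc_zero]
    have : (n + 1) / 2 + 1 ≤ n := by omega
    have h : (((n + 1) / 2 : ℕ) : ℝ) + 1 ≤ n := by exact_mod_cast this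
    linarith
  have hd0 : 0 ≤ d := by
    rw [hd]
    rcases Nat.even_or_odd n with h | h
    · rw [h.neg_one_pow]; norm_num
    · rw [h.neg_one_pow]; norm_num
  have hfac : (0 : ℝ) < (k.factorial : ℝ) := by exact_mod_cast Nat.factorial_pos k
  have hS : (0 : ℝ) < (r + d) ^ k + r ^ k := by positivity
  have hlim := (h0.add h1).div_const (((r + d) ^ k + r ^ k) / (k.factorial : ℝ))
  have h3 : (r ^ k / (k.factorial : ℝ) + (r + d) ^ k / (k.factorial : ℝ)) /
      (((r + d) ^ k + r ^ k) / (k.factorial : ℝ)) = 1 := by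
    rw [← add_div, add_comm (r ^ k), div_self]
    positivity
  rw [h3] at hlim
  refine hlim.congr' ?_
  filter_upwards [eventually_ge_atTop 1] with M hM
  rw [Nat.add_sub_cancel, twist_eq n M k (by omega) hM]
  have hp := (mpos M).ne'
  have hpk : ((M : ℝ) + 1) ^ k ≠ 0 := pow_ne_zero _ hp
  push_cast
  have hfac' := hfac.ne'
  have hS' := hS.ne'
  field_simp

end Pool.Agent.X105.WK
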