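import Pool.Agent.X105.WK.Cnt

namespace Pool.Agent.X105.WK
open scoped BigOperators
open Finset

variable {n M : ℕ}

noncomputable def tm (q k : ℕ) (T : Finset (Cr n M)) : ℤ :=
  ∑ i ∈ Finset.range (loops q T),
    if loops q (∅ : Finset (Cr n M)) + T.card + 2 * i = loops q T + 2 * k then
      (-1) ^ (loops q T - 1) * ((loops q T - 1).choose i : ℤ) else 0

noncomputable def mt (q k : ℕ) (T : Finset (Cr n M)) : ℤ :=
  if T.card ≤ k then (-1) ^ (loops q (∅ : Finset (Cr n M)) - 1 - T.card) *
    ((loops q (∅ : Finset (Cr n M)) - 1 - T.card).choose (k - T.card) : ℤ) else 0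

theorem tm_eq_single (q k : ℕ) (T : Finset (Cr n M)) (i0 : ℕ)
    (h : loops q (∅ : Finset (Cr n M)) + T.card + 2 * i0 = loops q T + 2 * k) (hn : 1 ≤ n) :
    tm q k T = (-1) ^ (loops q T - 1) * ((loops q T - 1).choose i0 : ℤ) := by
  have hc := c_pos hn q T
  unfold tm
  by_cases hi : i0 < loops q T
  · rw [Finset.sum_eq_single i0]
    · rw [if_pos h]
    · intro j _ hj
      rw [if_neg (by omega)]
    · intro h2; exact absurd (Finset.mem_range.2 hi) h2
  · rw [Nat.choose_eq_zero_of_lt (by omega)]
    rw [Finset.sum_eq_zero]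
    · simp
    · intro j hj
      rw [Finset.mem_range] at hj
      rw [if_neg (by omega)]

theorem tm_eq_zero (q k : ℕ) (T : Finset (Cr n M))
    (h : ∀ i0, loops q (∅ : Finset (Cr n M)) + T.card + 2 * i0 ≠ loops q T + 2 * k) :
    tm q k T = 0 := by
  unfold tm
  apply Finset.sum_eq_zero
  intro i _
  rw [if_neg (h i)]

theorem good_tm (hn : 1 ≤ n) (q k : ℕ) (T : Finset (Cr n M)) (h : good q T) :
    tm q k T = mt q k T := by
  unfold good at h
  unfold mt
  by_cases hk : T.card ≤ k
  · rw [if_pos hk, tm_eq_single q k T (k - T.card) (by omega) hn]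
    have : loops q T - 1 = loops q (∅ : Finset (Cr n M)) - 1 - T.card := by omega
    rw [this]
  · rw [if_neg hk, tm_eq_zero]
    intro i0; omega

theorem rho (q : ℕ) (T : Finset (Cr n M)) :
    loops q T + 2 * (mx q T).card ≤ loops q (∅ : Finset (Cr n M)) + T.card := by
  have h1 := (c_sub q (mx_sub q T)).1
  have h2 := mx_good q T
  unfold good at h2
  omega

/-- a size parameter -/
noncomputable def XX (n M q : ℕ) : ℕ := loops q (∅ : Finset (Cr n M)) + n * (M + 1)

theorem card_le_N (T : Finset (Cr n M)) : T.card ≤ n * (M + 1) := by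
  rw [← card_cr]; exact Finset.card_le_univ T

theorem XX_pos (hn : 1 ≤ n) (q : ℕ) : 1 ≤ XX n M q := by
  unfold XX
  have := c_pos hn q (∅ : Finset (Cr n M))
  omega

theorem bad_tm (hn : 1 ≤ n) (q k : ℕ) (T : Finset (Cr n M)) :
    |tm q k T| ≤ if (mx q T).card ≤ k then ((XX n M q : ℤ)) ^ (k - (mx q T).card) else 0 := by
  have hr := rho q T
  have hX := XX_pos (M := M) hn q
  by_cases hex : ∃ i0, loops q (∅ : Finset (Cr n M)) + T.card + 2 * i0 = loops q T + 2 * k
  · obtain ⟨i0, hi0⟩ := hex
    have hk : (mx q T).card ≤ k := by omega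
    rw [if_pos hk, tm_eq_single q k T i0 hi0 hn, abs_mul, abs_pow, abs_neg, abs_one, one_pow,
      one_mul, Nat.abs_cast]
    have h1 : (loops q T - 1).choose i0 ≤ (loops q T - 1) ^ i0 := Nat.choose_le_pow _ _
    have h2 : loops q T - 1 ≤ XX n M q := by
      have := card_le_N T
      unfold XX; omega
    have h3 : (loops q T - 1) ^ i0 ≤ (XX n M q) ^ i0 := Nat.pow_le_pow_left h2 _
    have h4 : (XX n M q) ^ i0 ≤ (XX n M q) ^ (k - (mx q T).card) :=
      Nat.pow_le_pow_right hX (by omega)
    exact_mod_cast h1.trans (h3.trans h4)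
  · push Not at hex
    rw [tm_eq_zero q k T hex, abs_zero]
    split_ifs
    · positivity
    · exact le_refl _

theorem bad_mt (hn : 1 ≤ n) (q k : ℕ) (T : Finset (Cr n M)) :
    |mt q k T| ≤ if (mx q T).card ≤ k then ((XX n M q : ℤ)) ^ (k - (mx q T).card) else 0 := by
  have hX := XX_pos (M := M) hn q
  have hs := Finset.card_le_card (mx_sub q T)
  unfold mt
  by_cases hk : T.card ≤ k
  · rw [if_pos hk, if_pos (hs.trans hk), abs_mul, abs_pow, abs_neg, abs_one, one_pow,
      one_mul, Nat.abs_cast]
    set V := loops q (∅ : Finset (Cr n M)) with hV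
    have h1 : (V - 1 - T.card).choose (k - T.card) ≤ (V - 1 - T.card) ^ (k - T.card) :=
      Nat.choose_le_pow _ _
    have h2 : V - 1 - T.card ≤ XX n M q := by
      unfold XX; omega
    have h3 := Nat.pow_le_pow_left h2 (k - T.card)
    have h4 : (XX n M q) ^ (k - T.card) ≤ (XX n M q) ^ (k - (mx q T).card) :=
      Nat.pow_le_pow_right hX (by omega)
    exact_mod_cast h1.trans (h3.trans h4)
  · rw [if_neg hk, abs_zero]
    split_ifs
    · positivity
    · exact le_refl _

/-- a constant -/
def Cst (n k : ℕ) : ℕ := ∑ f ∈ Finset.range (k + 1), 2 ^ (f + (2 * f) ^ 2) * (n * 5)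

open Classical in
theorem err_bound (hn : 2 ≤ n) (hM : 2 ≤ M) (q : ℕ) (hq : q < 2) (k : ℕ) :
    ∑ T ∈ (Finset.univ : Finset (Finset (Cr n M))).filter
      (fun T => ¬ good q T ∧ (mx q T).card ≤ k), (XX n M q) ^ (k - (mx q T).card) ≤
      Cst n k * (XX n M q) ^ (k - 1) := by
  set S := (Finset.univ : Finset (Finset (Cr n M))).filter
      (fun T => ¬ good q T ∧ (mx q T).card ≤ k) with hS
  have hmaps : ∀ T ∈ S, (mx q T).card ∈ Finset.range (k + 1) := by
    intro T hT
    rw [hS, Finset.mem_filter] at hT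
    rw [Finset.mem_range]; omega
  rw [← Finset.sum_fiberwise_of_maps_to hmaps, Cst, Finset.sum_mul]
  apply Finset.sum_le_sum
  intro f hf
  rw [Finset.mem_range] at hf
  have h1 : ∑ T ∈ S with (mx q T).card = f, (XX n M q) ^ (k - (mx q T).card) =
      (S.filter (fun T => (mx q T).card = f)).card * (XX n M q) ^ (k - f) := by
    rw [Finset.sum_congr rfl (g := fun _ => (XX n M q) ^ (k - f))]
    · rw [Finset.sum_const, smul_eq_mul]
    · intro T hT
      rw [Finset.mem_filter] at hT
      rw [hT.2]
  rw [h1]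
  have h2 : (S.filter (fun T => (mx q T).card = f)).card ≤
      2 ^ (f + (2 * f) ^ 2) * (BB n M f).card := by
    apply Finset.card_le_mul_card_image_of_maps_to (f := fun T => mx q T) (t := BB n M f)
    · intro T hT
      rw [Finset.mem_filter, hS, Finset.mem_filter] at hT
      rw [BB, Finset.mem_filter]
      exact ⟨Finset.mem_univ _, hT.2, mx_close hn hM q hq T hT.1.2.1⟩
    · intro F hF
      rw [BB, Finset.mem_filter] at hF
      have hsub : ((S.filter (fun T => (mx q T).card = f)).filter (fun T => mx q T = F)) ⊆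
          (F ∪ DD q F).powerset := by
        intro T hT
        rw [Finset.mem_filter] at hT
        rw [Finset.mem_powerset]
        intro e he
        rw [Finset.mem_union]
        by_cases heF : e ∈ mx q T
        · left; rw [← hT.2]; exact heF
        · right; rw [← hT.2]; exact mem_DD q hq T e he heF
      refine (Finset.card_le_card hsub).trans ?_
      rw [Finset.card_powerset]
      apply Nat.pow_le_pow_right (by norm_num)
      refine (Finset.card_union_le _ _).trans ?_
      have h3 := card_DD hn hM q F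
      rw [hF.2.1] at h3 ⊢
      omega
  by_cases hf2 : f < 2
  · rw [BB_small f hf2, mul_zero] at h2
    have : (S.filter (fun T => (mx q T).card = f)).card = 0 := by omega
    rw [this]; simp
  · push Not at hf2
    have h3 := card_BB (n := n) (M := M) f hf2
    have h4 : n * (M + 1) ≤ XX n M q := by unfold XX; omega
    calc _ ≤ (2 ^ (f + (2 * f) ^ 2) * ((n * 5) * (XX n M q) ^ (f - 1))) * (XX n M q) ^ (k - f) := by
          gcongr
          refine h2.trans ?_
          gcongr
          refine h3.trans ?_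
          gcongr
      _ = 2 ^ (f + (2 * f) ^ 2) * (n * 5) * ((XX n M q) ^ (f - 1) * (XX n M q) ^ (k - f)) := by ring
      _ = _ := by
          rw [← pow_add]
          congr 2
          omega

noncomputable def KK (n M q k : ℕ) : ℤ := ∑ T : Finset (Cr n M), tm q k T

theorem KK_close (hn : 2 ≤ n) (hM : 2 ≤ M) (q : ℕ) (hq : q < 2) (k : ℕ) :
    |KK n M q k - ∑ T : Finset (Cr n M), mt q k T| ≤
      2 * ((Cst n k : ℤ) * (XX n M q : ℤ) ^ (k - 1)) := by
  classical
  unfold KK
  rw [← Finset.sum_sub_distrib]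
  refine (Finset.abs_sum_le_sum_abs _ _).trans ?_
  have h1 : ∀ T : Finset (Cr n M), |tm q k T - mt q k T| ≤
      if ¬ good q T ∧ (mx q T).card ≤ k then 2 * (XX n M q : ℤ) ^ (k - (mx q T).card) else 0 := by
    intro T
    by_cases hg : good q T
    · rw [good_tm (by omega) q k T hg, sub_self, abs_zero]
      split_ifs
      · positivity
      · exact le_refl _
    · have a1 := bad_tm (by omega : 1 ≤ n) q k T
      have a2 := bad_mt (by omega : 1 ≤ n) q k T
      have a3 := abs_sub (tm q k T) (mt q k T)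
      by_cases hk : (mx q T).card ≤ k
      · rw [if_pos ⟨hg, hk⟩]
        rw [if_pos hk] at a1 a2
        linarith
      · rw [if_neg (fun h => hk h.2)]
        rw [if_neg hk] at a1 a2
        linarith
  refine (Finset.sum_le_sum (fun T _ => h1 T)).trans ?_
  rw [← Finset.sum_filter, ← Finset.mul_sum]
  have := err_bound hn hM q hq k
  have h2 : ((∑ T ∈ (Finset.univ : Finset (Finset (Cr n M))).filter
      (fun T => ¬ good q T ∧ (mx q T).card ≤ k), (XX n M q) ^ (k - (mx q T).card) : ℕ) : ℤ) ≤
      ((Cst n k * (XX n M q) ^ (k - 1) : ℕ) : ℤ) := by exact_mod_cast this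
  push_cast at h2
  linarith

theorem sum_mt (q k : ℕ) : ∑ T : Finset (Cr n M), mt q k T =
    ∑ j ∈ Finset.range (k + 1), ((n * (M + 1)).choose j : ℤ) *
      ((-1) ^ (loops q (∅ : Finset (Cr n M)) - 1 - j) *
        ((loops q (∅ : Finset (Cr n M)) - 1 - j).choose (k - j) : ℤ)) := by
  classical
  set V := loops q (∅ : Finset (Cr n M)) with hV
  let g : ℕ → ℤ := fun j => if j ≤ k then (-1) ^ (V - 1 - j) * ((V - 1 - j).choose (k - j) : ℤ)
    else 0
  have h1 := Finset.sum_powerset_apply_card g (x := (Finset.univ : Finset (Cr n M)))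
  rw [Finset.powerset_univ, Finset.card_univ, card_cr] at h1
  have h2 : ∑ T : Finset (Cr n M), mt q k T = ∑ T : Finset (Cr n M), g T.card := rfl
  rw [h2, h1]
  have h3 : ∑ j ∈ Finset.range (n * (M + 1) + 1), (n * (M + 1)).choose j • g j =
      ∑ j ∈ Finset.range (n * (M + 1) + 1 + (k + 1)), (n * (M + 1)).choose j • g j := by
    apply Finset.sum_subset
    · intro j hj; rw [Finset.mem_range] at *; omega
    · intro j _ hj
      rw [Finset.mem_range] at hj
      rw [Nat.choose_eq_zero_of_lt (by omega), zero_smul]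
  have h4 : ∑ j ∈ Finset.range (k + 1), (n * (M + 1)).choose j • g j =
      ∑ j ∈ Finset.range (n * (M + 1) + 1 + (k + 1)), (n * (M + 1)).choose j • g j := by
    apply Finset.sum_subset
    · intro j hj; rw [Finset.mem_range] at *; omega
    · intro j _ hj
      rw [Finset.mem_range] at hj
      have : ¬ j ≤ k := by omega
      simp only [g, if_neg this, smul_zero]
  rw [h3, ← h4]
  apply Finset.sum_congr rfl
  intro j hj
  rw [Finset.mem_range] at hj
  have : j ≤ k := by omega
  simp only [g, if_pos this, nsmul_eq_mul]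

end Pool.Agent.X105.WK
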